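import Mathlib

set_option autoImplicit false

namespace Pool.Agent.Results.MP_f7573e_al.NoUnitCoefficient

/-- Value of the nonempty word `x_{i1} x_{i2} ... x_{ik}` (a list of variable indices) in a ring
under the substitution `r` of ring elements for variables. The empty word is junk. -/
def wordVal {R : Type} [NonUnitalRing R] (r : ℕ → R) : List ℕ → R
  | [] => 0
  | [i] => r i
  | i :: j :: l => r i * wordVal r (j :: l)

/-- Value of a noncommutative integer polynomial (a finitely supported integer combination of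
words) under the substitution `r`. -/
noncomputable def polyVal {R : Type} [NonUnitalRing R] (r : ℕ → R) (f : List ℕ →₀ ℤ) : R :=
  f.sum fun w c => c • wordVal r w

/-- The ring `R` satisfies the identity `f`. -/
def IsIdentity (R : Type) [NonUnitalRing R] (f : List ℕ →₀ ℤ) : Prop :=
  ∀ r : ℕ → R, polyVal r f = 0

/-- `d` is the maximal length of a word occurring in `f`. -/
def HasDegree (f : List ℕ →₀ ℤ) (d : ℕ) : Prop :=
  (∀ w, f w ≠ 0 → w.length ≤ d) ∧ ∃ w, f w ≠ 0 ∧ w.length = d

/-- The coefficients of `f` have greatest common divisor `1`. -/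
def CoprimeCoeffs (f : List ℕ →₀ ℤ) : Prop := ∀ n : ℤ, (∀ w, n ∣ f w) → IsUnit n

/-- `f` is an integer combination of the words `x_{σ(1)} ... x_{σ(d)}`. -/
def Multilinear (f : List ℕ →₀ ℤ) (d : ℕ) : Prop := ∀ w, f w ≠ 0 → w.Perm (List.range d)

/-! ### tables on numbers -/

def T : ℕ := 0x400000000000000000004000000000000000000000000000000000000000000000000000000000000000000000000000000000000000000000000000400000000000000000000000000000000000000000000000000000000000000000000000000000000000000000000000000000000000000000000000000000000000000000000000000000000000000000000000000000000000000000000000000000000000000000000000000000000000000000000000000000000000000000000000000000000000000000000000000000000000000000000000000000000000000000000000000000000000000000000000000000000000000000000000000000000000000000000000000000000000000000000000000000000000000000000000000000000000000000000000000000000000000000000000000000000000000000000000000000000000000000000000000000000000000000000000000000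00000000000000000000000000000000000000000000000000000000000000000000000000000000000000000000000000000000000000000000000000000000000000000000000000000000000000000000000000000000000000000000000000000000000000000000000000000000000000000000000000000000000000000000000000000000000000000000000000000000000000000000000000000000000000000000000000000000000000000000000000000000000000000000000000000000000000000000000000000000000000000000000000000000000000000000000000000000000000000000000000000000000000000000000000000000000000000000000000000000000000000000000000000000000000000000000000000000000000000000000000000000000000000000000000000000000000000000000000000000000000000000000000000000000000000000000000000000000000000000000000000000000000000000000000000000000000000000000000000000000000000000000000400000000000001000000000000000000000000000000000004000000000400000000000000000000000000000000000000000000000000000100000000000000000001000000000000000000000000000000000000000000000000000000000000000000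00000000000000000000000000000000000000000000000000000000000000000000000000000000000000000000000000000000000000000000000000000000000000000000000000000000000000000000000000000000000000000004000000000000080000000000000000000000000000000000040008000000010000000000000000000000000000000000000000000000000008000000000800000000000000000000000000000000000000000000000000000000000000000000000000000000000000000000000000000000000000000000000000000400000000000008000000000000000000000000000000000000000000000400000000000400080000000000000000000000040008000004000008000000000000000000000000000000000000000000000008000000040008000000080800000000000000000000000000000000000000000000000000000000000000000000000000000000000000000000000000000000000000000400084000000100000000000840004000000000000000000004000840000400000800000000000000000848000040000000000000000000010000000000000000000000000000000000000000000000000000000000000040004000004000004000000000000000004040000000000000000000000000000000000000000000000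00000000000000000000000000000000000000000000000000000040c000000000c000000000000000000000000000000000000040c00000008000c0000000c0c0000000000000000000000000000000000000c000000000c0c0000000000000000000000000000000000000000000000000000000000000000000000000000000000000000000000000000000000000000000000000000000000000000000000000000000000000000000000000000000000000000000000000000000000000000000000000000000000000000000000000000000000000000000000000000000000000000000000000000000000000000000000000000000000000000000000000000000000000000000000000000000000000000000000000000000000000000000000000000000000000000000000000000000000000000000000000000000000000000000000000000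

abbrev B := ℕ × ℕ

def cat (x y : B) : B := (Nat.add x.1 y.1, Nat.add (Nat.mul x.2 (Nat.pow 5 y.1)) y.2)

def tbl (x : B) : ℕ := bif Nat.beq x.1 6 then Nat.mod (Nat.shiftRight T (Nat.mul 2 x.2)) 4
  else bif Nat.beq x.1 5 then (bif Nat.beq x.2 194 then 2 else 0) else 0

def t4 (a b x y z w : B) : ℕ := tbl (cat a (cat x (cat y (cat z (cat w b)))))

def t5 (a b x y z w u : B) : ℕ := tbl (cat a (cat x (cat y (cat z (cat w (cat u b))))))

def s4n (a b x0 x1 x2 x3 : B) : ℕ := t4 a b x0 x1 x2 x3 + 3 * t4 a b x0 x1 x3 x2 + 3 * t4 a b x0 x2 x1 x3 + t4 a b x0 x2 x3 x1 + t4 a b x0 x3 x1 x2 + 3 * t4 a b x0 x3 x2 x1 + 3 * t4 a b x1 x0 x2 x3 + t4 a b x1 x0 x3 x2 + t4 a b x1 x2 x0 x3 + 3 * t4 a b x1 x2 x3 x0 + 3 * t4 a b x1 x3 x0 x2 + t4 a b x1 x3 x2 x0 + t4 a b x2 x0 x1 x3 + 3 * t4 a b x2 x0 x3 x1 + 3 * t4 a b x2 x1 x0 x3 + t4 a b x2 x1 x3 x0 + t4 a b x2 x3 x0 x1 + 3 * t4 a b x2 x3 x1 x0 + 3 * t4 a b x3 x0 x1 x2 + t4 a b x3 x0 x2 x1 + t4 a b x3 x1 x0 x2 + 3 * t4 a b x3 x1 x2 x0 + 3 * t4 a b x3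 x2 x0 x1 + t4 a b x3 x2 x1 x0

def qn (a b x x' y1 y2 y3 : B) : ℕ := t5 a b x x' y1 y2 y3 + t5 a b y1 x y2 x' y3 + t5 a b y1 y2 x x' y3 + t5 a b x x' y1 y3 y2 + t5 a b y1 x y3 x' y2 + t5 a b y1 y3 x x' y2 + t5 a b x x' y2 y1 y3 + t5 a b y2 x y1 x' y3 + t5 a b y2 y1 x x' y3 + t5 a b x x' y2 y3 y1 + t5 a b y2 x y3 x' y1 + t5 a b y2 y3 x x' y1 + t5 a b x x' y3 y1 y2 + t5 a b y3 x y1 x' y2 + t5 a b y3 y1 x x' y2 + t5 a b x x' y3 y2 y1 + t5 a b y3 x y2 x' y1 + t5 a b y3 y2 x x' y1

def gn (a b x0 x1 x2 x3 : B) : ℕ := s4n a b x0 x1 x2 x3 +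
  2 * (qn a b x0 x0 x1 x2 x3 + qn a b x1 x1 x0 x2 x3 + qn a b x2 x2 x0 x1 x3 + qn a b x3 x3 x0 x1 x2)

def val (l : List (Fin 5)) : ℕ := l.foldl (fun n d => Nat.add (Nat.mul 5 n) d.val) 0

def bl (l : List (Fin 5)) : B := (l.length, val l)

def words : ℕ → List (List (Fin 5))
  | 0 => [[]]
  | n + 1 => (words n).flatMap fun l => [0 :: l, 1 :: l, 2 :: l, 3 :: l, 4 :: l]

def full (l : List (Fin 5)) : Bool := [(0 : Fin 5), 1, 2, 3, 4].all fun i => l.contains i

def fw (n : ℕ) : List (List (Fin 5)) := (words n).filter full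

def cuts4 (m : ℕ) : List (ℕ × ℕ × ℕ × ℕ × ℕ) :=
  (List.range 3).flatMap fun na => (List.range 3).flatMap fun n0 => (List.range 3).flatMap fun n1 =>
  (List.range 3).flatMap fun n2 => (List.range 3).flatMap fun n3 =>
    if na + n0 + n1 + n2 + n3 + 4 ≤ m then [(na, n0 + 1, n1 + 1, n2 + 1, n3 + 1)] else []

def srt4 (x0 x1 x2 x3 : B) : Bool := Nat.ble x0.2 x1.2 && Nat.ble x1.2 x2.2 && Nat.ble x2.2 x3.2

def chkS (l : List (Fin 5)) (n : ℕ × ℕ × ℕ × ℕ × ℕ) : Bool :=
  let a := bl (l.take n.1)
  let l0 := l.drop n.1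
  let x0 := bl (l0.take n.2.1)
  let l1 := l0.drop n.2.1
  let x1 := bl (l1.take n.2.2.1)
  let l2 := l1.drop n.2.2.1
  let x2 := bl (l2.take n.2.2.2.1)
  let l3 := l2.drop n.2.2.2.1
  let x3 := bl (l3.take n.2.2.2.2)
  let b := bl (l3.drop n.2.2.2.2)
  !(srt4 x0 x1 x2 x3) || Nat.beq (Nat.mod (s4n a b x0 x1 x2 x3) 4) 0

def chkG (l : List (Fin 5)) (n : ℕ × ℕ × ℕ × ℕ × ℕ) : Bool :=
  let a := bl (l.take n.1)
  let l0 := l.drop n.1
  let x0 := bl (l0.take n.2.1)
  let l1 := l0.drop n.2.1
  let x1 := bl (l1.take n.2.2.1)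
  let l2 := l1.drop n.2.2.1
  let x2 := bl (l2.take n.2.2.2.1)
  let l3 := l2.drop n.2.2.2.1
  let x3 := bl (l3.take n.2.2.2.2)
  let b := bl (l3.drop n.2.2.2.2)
  !(srt4 x0 x1 x2 x3) || Nat.beq (Nat.mod (gn a b x0 x1 x2 x3) 4) 0

/-- cuts into six pieces of a word of length six: all pieces have length one except one. -/
def cuts5 : List (ℕ × ℕ × ℕ × ℕ × ℕ × ℕ) :=
  [(0,1,1,1,1,1), (1,1,1,1,1,1), (0,2,1,1,1,1), (0,1,2,1,1,1), (0,1,1,2,1,1), (0,1,1,1,2,1), (0,1,1,1,1,2)]

def chkD (l : List (Fin 5)) (n : ℕ × ℕ × ℕ × ℕ × ℕ × ℕ) : Bool :=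
  let a := bl (l.take n.1)
  let l0 := l.drop n.1
  let x := bl (l0.take n.2.1)
  let l1 := l0.drop n.2.1
  let x' := bl (l1.take n.2.2.1)
  let l2 := l1.drop n.2.2.1
  let y1 := bl (l2.take n.2.2.2.1)
  let l3 := l2.drop n.2.2.2.1
  let y2 := bl (l3.take n.2.2.2.2.1)
  let l4 := l3.drop n.2.2.2.2.1
  let y3 := bl (l4.take n.2.2.2.2.2)
  let b := bl (l4.drop n.2.2.2.2.2)
  !(Nat.ble x.2 x'.2 && Nat.ble y1.2 y2.2 && Nat.ble y2.2 y3.2) ||
    Nat.beq (Nat.mod (2 * (qn a b x x' y1 y2 y3 + qn a b x' x y1 y2 y3)) 4) 0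

theorem cS : ((fw 6).all fun l => (cuts4 6).all fun n => chkS l n) = true := by
  decide +kernel

theorem cG : ((fw 5).all fun l => (cuts4 5).all fun n => chkG l n) = true := by
  decide +kernel

theorem cD : ((fw 6).all fun l => cuts5.all fun n => chkD l n) = true := by
  decide +kernel

/-! ### the functional on words -/

theorem cat_assoc' (x y z : B) : cat (cat x y) z = cat x (cat y z) := by
  simp only [cat, Nat.add_eq, Nat.mul_eq, Nat.pow_eq, Prod.mk.injEq]
  refine ⟨by ring, ?_⟩
  rw [pow_add]; ring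

theorem val_foldl (l : List (Fin 5)) (n : ℕ) :
    l.foldl (fun n d => Nat.add (Nat.mul 5 n) d.val) n = n * 5 ^ l.length + val l := by
  induction l generalizing n with
  | nil => simp [val]
  | cons d l ih =>
    simp only [val, List.foldl_cons, List.length_cons]
    rw [ih, ih (Nat.add (Nat.mul 5 0) d.val)]
    simp only [Nat.add_eq, Nat.mul_eq, pow_succ]
    ring

theorem bl_append (l m : List (Fin 5)) : bl (l ++ m) = cat (bl l) (bl m) := by
  simp only [bl, cat, List.length_append, Nat.add_eq, Nat.mul_eq, Nat.pow_eq, Prod.mk.injEq, true_and]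
  rw [val, List.foldl_append, val_foldl]
  rfl

/-- The table functional on words in five letters. -/
def phi (l : List (Fin 5)) : ZMod 4 := if l.toFinset = Finset.univ then (tbl (bl l) : ZMod 4) else 0

theorem tbl_ne (x : B) (h : tbl x ≠ 0) : x.1 = 6 ∨ x.1 = 5 := by
  by_contra hc
  push Not at hc
  apply h
  unfold tbl
  have h1 : Nat.beq x.1 6 = false := by
    cases hb : Nat.beq x.1 6 with
    | false => rfl
    | true => exact absurd (Nat.eq_of_beq_eq_true hb) hc.1
  have h2 : Nat.beq x.1 5 = false := by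
    cases hb : Nat.beq x.1 5 with
    | false => rfl
    | true => exact absurd (Nat.eq_of_beq_eq_true hb) hc.2
  rw [h1, h2]; rfl

theorem phi_len (l : List (Fin 5)) (h5 : l.length ≠ 5) (h6 : l.length ≠ 6) : phi l = 0 := by
  unfold phi
  have : tbl (bl l) = 0 := by
    by_contra hc
    rcases tbl_ne _ hc with h | h
    · exact h6 h
    · exact h5 h
  rw [this]; simp

def h4 (a b x y z w : List (Fin 5)) : ZMod 4 := phi (a ++ (x ++ (y ++ (z ++ (w ++ b)))))

def h5 (a b x y z w u : List (Fin 5)) : ZMod 4 := phi (a ++ (x ++ (y ++ (z ++ (w ++ (u ++ b))))))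

def Sw (a b x0 x1 x2 x3 : List (Fin 5)) : ZMod 4 := h4 a b x0 x1 x2 x3 - h4 a b x0 x1 x3 x2 - h4 a b x0 x2 x1 x3 + h4 a b x0 x2 x3 x1 + h4 a b x0 x3 x1 x2 - h4 a b x0 x3 x2 x1 - h4 a b x1 x0 x2 x3 + h4 a b x1 x0 x3 x2 + h4 a b x1 x2 x0 x3 - h4 a b x1 x2 x3 x0 - h4 a b x1 x3 x0 x2 + h4 a b x1 x3 x2 x0 + h4 a b x2 x0 x1 x3 - h4 a b x2 x0 x3 x1 - h4 a b x2 x1 x0 x3 + h4 a b x2 x1 x3 x0 + h4 a b x2 x3 x0 x1 - h4 a b x2 x3 x1 x0 - h4 a b x3 x0 x1 x2 + h4 a b x3 x0 x2 x1 + h4 a b x3 x1 x0 x2 - h4 a b x3 x1 x2 x0 - h4 a b x3 x2 x0 x1 + h4 a b x3 x2 x1 x0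

def Qw (a b x x' y1 y2 y3 : List (Fin 5)) : ZMod 4 := h5 a b x x' y1 y2 y3 + h5 a b y1 x y2 x' y3 + h5 a b y1 y2 x x' y3 + h5 a b x x' y1 y3 y2 + h5 a b y1 x y3 x' y2 + h5 a b y1 y3 x x' y2 + h5 a b x x' y2 y1 y3 + h5 a b y2 x y1 x' y3 + h5 a b y2 y1 x x' y3 + h5 a b x x' y2 y3 y1 + h5 a b y2 x y3 x' y1 + h5 a b y2 y3 x x' y1 + h5 a b x x' y3 y1 y2 + h5 a b y3 x y1 x' y2 + h5 a b y3 y1 x x' y2 + h5 a b x x' y3 y2 y1 + h5 a b y3 x y2 x' y1 + h5 a b y3 y2 x x' y1

def Gw (a b x0 x1 x2 x3 : List (Fin 5)) : ZMod 4 := Sw a b x0 x1 x2 x3 -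
  2 * (Qw a b x0 x0 x1 x2 x3 + Qw a b x1 x1 x0 x2 x3 + Qw a b x2 x2 x0 x1 x3 + Qw a b x3 x3 x0 x1 x2)

theorem Sw_01 (a b x0 x1 x2 x3 : List (Fin 5)) : Sw a b x1 x0 x2 x3 = - Sw a b x0 x1 x2 x3 := by
  unfold Sw; ring

theorem Sw_12 (a b x0 x1 x2 x3 : List (Fin 5)) : Sw a b x0 x2 x1 x3 = - Sw a b x0 x1 x2 x3 := by
  unfold Sw; ring

theorem Sw_23 (a b x0 x1 x2 x3 : List (Fin 5)) : Sw a b x0 x1 x3 x2 = - Sw a b x0 x1 x2 x3 := by
  unfold Sw; ring

theorem Qw_y12 (a b x x' y1 y2 y3 : List (Fin 5)) : Qw a b x x' y2 y1 y3 = Qw a b x x' y1 y2 y3 := by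
  unfold Qw; ring

theorem Qw_y23 (a b x x' y1 y2 y3 : List (Fin 5)) : Qw a b x x' y1 y3 y2 = Qw a b x x' y1 y2 y3 := by
  unfold Qw; ring

theorem four0 (z : ZMod 4) : 4 * z = 0 := by
  have : (4 : ZMod 4) = 0 := by decide
  rw [this, zero_mul]

theorem Gw_01 (a b x0 x1 x2 x3 : List (Fin 5)) : Gw a b x1 x0 x2 x3 = - Gw a b x0 x1 x2 x3 := by
  unfold Gw
  rw [Sw_01, Qw_y12 a b x2 x2 x0 x1 x3, Qw_y12 a b x3 x3 x0 x1 x2]
  linear_combination (-1 : ZMod 4) * four0 (Qw a b x0 x0 x1 x2 x3 + Qw a b x1 x1 x0 x2 x3 +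
    Qw a b x2 x2 x0 x1 x3 + Qw a b x3 x3 x0 x1 x2)

theorem Gw_12 (a b x0 x1 x2 x3 : List (Fin 5)) : Gw a b x0 x2 x1 x3 = - Gw a b x0 x1 x2 x3 := by
  unfold Gw
  rw [Sw_12, Qw_y12 a b x0 x0 x1 x2 x3, Qw_y23 a b x3 x3 x0 x1 x2]
  linear_combination (-1 : ZMod 4) * four0 (Qw a b x0 x0 x1 x2 x3 + Qw a b x1 x1 x0 x2 x3 +
    Qw a b x2 x2 x0 x1 x3 + Qw a b x3 x3 x0 x1 x2)

theorem Gw_23 (a b x0 x1 x2 x3 : List (Fin 5)) : Gw a b x0 x1 x3 x2 = - Gw a b x0 x1 x2 x3 := by
  unfold Gw
  rw [Sw_23, Qw_y23 a b x0 x0 x1 x2 x3, Qw_y23 a b x1 x1 x0 x2 x3]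
  linear_combination (-1 : ZMod 4) * four0 (Qw a b x0 x0 x1 x2 x3 + Qw a b x1 x1 x0 x2 x3 +
    Qw a b x2 x2 x0 x1 x3 + Qw a b x3 x3 x0 x1 x2)

/-! ### sorting arguments -/

theorem sort3 {α : Type} (k : α → ℕ) (P : α → α → α → Prop)
    (h01 : ∀ a b c, P a b c → P b a c) (h12 : ∀ a b c, P a b c → P a c b)
    (hs : ∀ a b c, k a ≤ k b → k b ≤ k c → P a b c) : ∀ a b c, P a b c := by
  intro a b c
  rcases le_total (k a) (k b) with h | h <;> rcases le_total (k b) (k c) with h' | h' <;>
    rcases le_total (k a) (k c) with h'' | h''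
  · exact hs _ _ _ h h'
  · exact hs _ _ _ h h'
  · exact h12 _ _ _ (hs _ _ _ h'' h')
  · exact h12 _ _ _ (h01 _ _ _ (hs _ _ _ h'' h))
  · exact h01 _ _ _ (hs _ _ _ h h'')
  · exact h01 _ _ _ (h12 _ _ _ (hs _ _ _ h' h''))
  · exact h01 _ _ _ (h12 _ _ _ (h01 _ _ _ (hs _ _ _ h' h)))
  · exact h01 _ _ _ (h12 _ _ _ (h01 _ _ _ (hs _ _ _ h' h)))

theorem sort4 {α : Type} (k : α → ℕ) (P : α → α → α → α → Prop)
    (h01 : ∀ a b c d, P a b c d → P b a c d) (h12 : ∀ a b c d, P a b c d → P a c b d)
    (h23 : ∀ a b c d, P a b c d → P a b d c)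
    (hs : ∀ a b c d, k a ≤ k b → k b ≤ k c → k c ≤ k d → P a b c d) : ∀ a b c d, P a b c d := by
  -- last one maximal
  have key : ∀ a b c d, k a ≤ k d → k b ≤ k d → k c ≤ k d → P a b c d := by
    intro a b c d
    refine sort3 k (fun a b c => k a ≤ k d → k b ≤ k d → k c ≤ k d → P a b c d) ?_ ?_ ?_ a b c
    · intro a b c h ha hb hc
      exact h01 _ _ _ _ (h hb ha hc)
    · intro a b c h ha hb hc
      exact h12 _ _ _ _ (h ha hc hb)
    · intro a b c hab hbc _ _ hc
      exact hs _ _ _ _ hab hbc hc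
  intro a b c d
  by_cases hd : k a ≤ k d ∧ k b ≤ k d ∧ k c ≤ k d
  · exact key _ _ _ _ hd.1 hd.2.1 hd.2.2
  by_cases hc : k a ≤ k c ∧ k b ≤ k c ∧ k d ≤ k c
  · exact h23 _ _ _ _ (key _ _ _ _ hc.1 hc.2.1 hc.2.2)
  by_cases hb : k a ≤ k b ∧ k c ≤ k b ∧ k d ≤ k b
  · exact h12 _ _ _ _ (h23 _ _ _ _ (key _ _ _ _ hb.1 hb.2.1 hb.2.2))
  · have ha : k b ≤ k a ∧ k c ≤ k a ∧ k d ≤ k a := by omega
    exact h01 _ _ _ _ (h12 _ _ _ _ (h23 _ _ _ _ (key _ _ _ _ ha.1 ha.2.1 ha.2.2)))

/-! ### from tables to words -/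

theorem mem_words (l : List (Fin 5)) : l ∈ words l.length := by
  induction l with
  | nil => simp [words]
  | cons d l ih =>
    simp only [List.length_cons, words, List.mem_flatMap]
    refine ⟨l, ih, ?_⟩
    fin_cases d <;> simp

theorem full_iff (l : List (Fin 5)) : full l = true ↔ l.toFinset = Finset.univ := by
  unfold full
  simp only [List.all_cons, List.all_nil, List.contains_iff_mem, Bool.and_true, Bool.and_eq_true,
    Finset.eq_univ_iff_forall, List.mem_toFinset]
  constructor
  · rintro ⟨h0, h1, h2, h3, h4⟩ i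
    fin_cases i <;> assumption
  · intro h
    exact ⟨h 0, h 1, h 2, h 3, h 4⟩

theorem mem_fw (l : List (Fin 5)) (h : l.toFinset = Finset.univ) : l ∈ fw l.length := by
  unfold fw
  rw [List.mem_filter]
  exact ⟨mem_words l, (full_iff l).2 h⟩

theorem phi_full (l : List (Fin 5)) (h : l.toFinset = Finset.univ) : phi l = (tbl (bl l) : ZMod 4) := by
  unfold phi; rw [if_pos h]

theorem h4_full (a b x y z w m : List (Fin 5)) (h : m.toFinset = Finset.univ)
    (hm : (a ++ (x ++ (y ++ (z ++ (w ++ b))))).toFinset = m.toFinset) :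
    h4 a b x y z w = (t4 (bl a) (bl b) (bl x) (bl y) (bl z) (bl w) : ZMod 4) := by
  unfold h4 t4
  rw [phi_full _ (hm.trans h)]
  simp only [bl_append]

theorem h5_full (a b x y z w u m : List (Fin 5)) (h : m.toFinset = Finset.univ)
    (hm : (a ++ (x ++ (y ++ (z ++ (w ++ (u ++ b)))))).toFinset = m.toFinset) :
    h5 a b x y z w u = (t5 (bl a) (bl b) (bl x) (bl y) (bl z) (bl w) (bl u) : ZMod 4) := by
  unfold h5 t5
  rw [phi_full _ (hm.trans h)]
  simp only [bl_append]

theorem Sw_full (a b x0 x1 x2 x3 : List (Fin 5))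
    (h : (a ++ (x0 ++ (x1 ++ (x2 ++ (x3 ++ b))))).toFinset = Finset.univ) :
    Sw a b x0 x1 x2 x3 = (s4n (bl a) (bl b) (bl x0) (bl x1) (bl x2) (bl x3) : ZMod 4) := by
  have key : ∀ x y z w : List (Fin 5), x.toFinset ∪ (y.toFinset ∪ (z.toFinset ∪ w.toFinset)) =
      x0.toFinset ∪ (x1.toFinset ∪ (x2.toFinset ∪ x3.toFinset)) →
      h4 a b x y z w = (t4 (bl a) (bl b) (bl x) (bl y) (bl z) (bl w) : ZMod 4) := by
    intro x y z w hu
    refine h4_full a b x y z w _ h ?_
    simp only [List.toFinset_append]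
    have e1 : ∀ p q r s t u : Finset (Fin 5), p ∪ (q ∪ (r ∪ (s ∪ (t ∪ u)))) =
        p ∪ u ∪ (q ∪ (r ∪ (s ∪ t))) := by
      intro p q r s t u; ext i; simp only [Finset.mem_union]; tauto
    rw [e1, e1, hu]
  unfold Sw s4n
  push_cast
  have three : (3 : ZMod 4) = -1 := by decide
  rw [three]
  rw [key x0 x1 x2 x3 (by first | rfl | (ext i; simp only [Finset.mem_union]; tauto)), key x0 x1 x3 x2 (by first | rfl | (ext i; simp only [Finset.mem_union]; tauto)), key x0 x2 x1 x3 (by first | rfl | (ext i; simp only [Finset.mem_union]; tauto)), key x0 x2 x3 x1 (by first | rfl | (ext i; simp only [Finset.mem_union]; tauto)), key x0 x3 x1 x2 (by first | rfl | (ext i; simp only [Finset.mem_union]; tauto)), key x0 x3 x2 x1 (by first | rfl | (ext i; simp only [Finset.mem_union]; tauto)), key x1 x0 x2 x3 (by first | rfl | (ext i; simp only [Finset.mem_union]; tauto)), key x1 x0 x3 x2 (by first | rfl | (ext i; simp only [Finset.mem_union]; tauto)), key x1 x2 x0 x3 (by first | rfl | (ext i; simp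 only [Finset.mem_union]; tauto)), key x1 x2 x3 x0 (by first | rfl | (ext i; simp only [Finset.mem_union]; tauto)), key x1 x3 x0 x2 (by first | rfl | (ext i; simp only [Finset.mem_union]; tauto)), key x1 x3 x2 x0 (by first | rfl | (ext i; simp only [Finset.mem_union]; tauto)), key x2 x0 x1 x3 (by first | rfl | (ext i; simp only [Finset.mem_union]; tauto)), key x2 x0 x3 x1 (by first | rfl | (ext i; simp only [Finset.mem_union]; tauto)), key x2 x1 x0 x3 (by first | rfl | (ext i; simp only [Finset.mem_union]; tauto)), key x2 x1 x3 x0 (by first | rfl | (ext i; simp only [Finset.mem_union]; tauto)), key x2 x3 x0 x1 (by first | rfl | (ext i; simp only [Finset.mem_union]; tauto)), key x2 x3 x1 x0 (by first | rfl | (ext i; simp only [Finset.mem_union]; tauto)), key x3 x0 x1 x2 (by first | rfl | (ext i; simp only [Finset.mem_union]; tauto)), key x3 x0 x2 x1 (by first | rfl | (ext i; simp only [Finset.mem_union]; tauto)), key x3 x1 x0 x2 (by first | rfl | (ext i; simp only [Finset.mem_union];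 tauto)), key x3 x1 x2 x0 (by first | rfl | (ext i; simp only [Finset.mem_union]; tauto)), key x3 x2 x0 x1 (by first | rfl | (ext i; simp only [Finset.mem_union]; tauto)), key x3 x2 x1 x0 (by first | rfl | (ext i; simp only [Finset.mem_union]; tauto))]
  ring

theorem Qw_full (a b x x' y1 y2 y3 : List (Fin 5))
    (h : (a ++ (x ++ (x' ++ (y1 ++ (y2 ++ (y3 ++ b)))))).toFinset = Finset.univ) :
    Qw a b x x' y1 y2 y3 = (qn (bl a) (bl b) (bl x) (bl x') (bl y1) (bl y2) (bl y3) : ZMod 4) := by
  have key : ∀ p q r s t : List (Fin 5),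
      p.toFinset ∪ (q.toFinset ∪ (r.toFinset ∪ (s.toFinset ∪ t.toFinset))) =
      x.toFinset ∪ (x'.toFinset ∪ (y1.toFinset ∪ (y2.toFinset ∪ y3.toFinset))) →
      h5 a b p q r s t = (t5 (bl a) (bl b) (bl p) (bl q) (bl r) (bl s) (bl t) : ZMod 4) := by
    intro p q r s t hu
    refine h5_full a b p q r s t _ h ?_
    simp only [List.toFinset_append]
    have e1 : ∀ p q r s t u v : Finset (Fin 5), p ∪ (q ∪ (r ∪ (s ∪ (t ∪ (u ∪ v))))) =
        p ∪ v ∪ (q ∪ (r ∪ (s ∪ (t ∪ u)))) := by
      intro p q r s t u v; ext i; simp only [Finset.mem_union]; tauto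
    rw [e1, e1, hu]
  unfold Qw qn
  push_cast
  rw [key x x' y1 y2 y3 (by first | rfl | (ext i; simp only [Finset.mem_union]; tauto)), key y1 x y2 x' y3 (by first | rfl | (ext i; simp only [Finset.mem_union]; tauto)), key y1 y2 x x' y3 (by first | rfl | (ext i; simp only [Finset.mem_union]; tauto)), key x x' y1 y3 y2 (by first | rfl | (ext i; simp only [Finset.mem_union]; tauto)), key y1 x y3 x' y2 (by first | rfl | (ext i; simp only [Finset.mem_union]; tauto)), key y1 y3 x x' y2 (by first | rfl | (ext i; simp only [Finset.mem_union]; tauto)), key x x' y2 y1 y3 (by first | rfl | (ext i; simp only [Finset.mem_union]; tauto)), key y2 x y1 x' y3 (by first | rfl | (ext i; simp only [Finset.mem_union]; tauto)), key y2 y1 x x' y3 (by first | rfl | (ext i; simp only [Finset.mem_union]; tauto)), key x x' y2 y3 y1 (by first | rfl | (ext i; simp only [Finset.mem_union]; tauto)), key y2 x y3 x' y1 (by first | rfl | (ext i; simp only [Finset.mem_union]; tauto)), key y2 y3 x x' y1 (by first |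 rfl | (ext i; simp only [Finset.mem_union]; tauto)), key x x' y3 y1 y2 (by first | rfl | (ext i; simp only [Finset.mem_union]; tauto)), key y3 x y1 x' y2 (by first | rfl | (ext i; simp only [Finset.mem_union]; tauto)), key y3 y1 x x' y2 (by first | rfl | (ext i; simp only [Finset.mem_union]; tauto)), key x x' y3 y2 y1 (by first | rfl | (ext i; simp only [Finset.mem_union]; tauto)), key y3 x y2 x' y1 (by first | rfl | (ext i; simp only [Finset.mem_union]; tauto)), key y3 y2 x x' y1 (by first | rfl | (ext i; simp only [Finset.mem_union]; tauto))]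

theorem Sw_not_full (a b x0 x1 x2 x3 : List (Fin 5))
    (h : (a ++ (x0 ++ (x1 ++ (x2 ++ (x3 ++ b))))).toFinset ≠ Finset.univ) :
    Sw a b x0 x1 x2 x3 = 0 := by
  have key : ∀ x y z w : List (Fin 5), x.toFinset ∪ (y.toFinset ∪ (z.toFinset ∪ w.toFinset)) =
      x0.toFinset ∪ (x1.toFinset ∪ (x2.toFinset ∪ x3.toFinset)) → h4 a b x y z w = 0 := by
    intro x y z w hu
    unfold h4 phi
    rw [if_neg]
    intro hc
    apply h
    rw [← hc]
    simp only [List.toFinset_append]
    have e1 : ∀ p q r s t u : Finset (Fin 5), p ∪ (q ∪ (r ∪ (s ∪ (t ∪ u)))) =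
        p ∪ u ∪ (q ∪ (r ∪ (s ∪ t))) := by
      intro p q r s t u; ext i; simp only [Finset.mem_union]; tauto
    rw [e1, e1, hu]
  unfold Sw
  rw [key x0 x1 x2 x3 (by first | rfl | (ext i; simp only [Finset.mem_union]; tauto)), key x0 x1 x3 x2 (by first | rfl | (ext i; simp only [Finset.mem_union]; tauto)), key x0 x2 x1 x3 (by first | rfl | (ext i; simp only [Finset.mem_union]; tauto)), key x0 x2 x3 x1 (by first | rfl | (ext i; simp only [Finset.mem_union]; tauto)), key x0 x3 x1 x2 (by first | rfl | (ext i; simp only [Finset.mem_union]; tauto)), key x0 x3 x2 x1 (by first | rfl | (ext i; simp only [Finset.mem_union]; tauto)), key x1 x0 x2 x3 (by first | rfl | (ext i; simp only [Finset.mem_union]; tauto)), key x1 x0 x3 x2 (by first | rfl | (ext i; simp only [Finset.mem_union]; tauto)), key x1 x2 x0 x3 (by first | rfl | (ext i; simp only [Finset.mem_union]; tauto)), key x1 x2 x3 x0 (by first | rfl | (ext i; simp only [Finset.mem_union]; tauto)), key x1 x3 x0 x2 (by first | rfl | (ext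 i; simp only [Finset.mem_union]; tauto)), key x1 x3 x2 x0 (by first | rfl | (ext i; simp only [Finset.mem_union]; tauto)), key x2 x0 x1 x3 (by first | rfl | (ext i; simp only [Finset.mem_union]; tauto)), key x2 x0 x3 x1 (by first | rfl | (ext i; simp only [Finset.mem_union]; tauto)), key x2 x1 x0 x3 (by first | rfl | (ext i; simp only [Finset.mem_union]; tauto)), key x2 x1 x3 x0 (by first | rfl | (ext i; simp only [Finset.mem_union]; tauto)), key x2 x3 x0 x1 (by first | rfl | (ext i; simp only [Finset.mem_union]; tauto)), key x2 x3 x1 x0 (by first | rfl | (ext i; simp only [Finset.mem_union]; tauto)), key x3 x0 x1 x2 (by first | rfl | (ext i; simp only [Finset.mem_union]; tauto)), key x3 x0 x2 x1 (by first | rfl | (ext i; simp only [Finset.mem_union]; tauto)), key x3 x1 x0 x2 (by first | rfl | (ext i; simp only [Finset.mem_union]; tauto)), key x3 x1 x2 x0 (by first | rfl | (ext i; simp only [Finset.mem_union]; tauto)), key x3 x2 x0 x1 (by first | rfl | (ext i; simp only [Finset.mem_union];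 tauto)), key x3 x2 x1 x0 (by first | rfl | (ext i; simp only [Finset.mem_union]; tauto))]
  ring

theorem Qw_not_full (a b x x' y1 y2 y3 : List (Fin 5))
    (h : (a ++ (x ++ (x' ++ (y1 ++ (y2 ++ (y3 ++ b)))))).toFinset ≠ Finset.univ) :
    Qw a b x x' y1 y2 y3 = 0 := by
  have key : ∀ p q r s t : List (Fin 5),
      p.toFinset ∪ (q.toFinset ∪ (r.toFinset ∪ (s.toFinset ∪ t.toFinset))) =
      x.toFinset ∪ (x'.toFinset ∪ (y1.toFinset ∪ (y2.toFinset ∪ y3.toFinset))) →
      h5 a b p q r s t = 0 := by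
    intro p q r s t hu
    unfold h5 phi
    rw [if_neg]
    intro hc
    apply h
    rw [← hc]
    simp only [List.toFinset_append]
    have e1 : ∀ p q r s t u v : Finset (Fin 5), p ∪ (q ∪ (r ∪ (s ∪ (t ∪ (u ∪ v))))) =
        p ∪ v ∪ (q ∪ (r ∪ (s ∪ (t ∪ u)))) := by
      intro p q r s t u v; ext i; simp only [Finset.mem_union]; tauto
    rw [e1, e1, hu]
  unfold Qw
  rw [key x x' y1 y2 y3 (by first | rfl | (ext i; simp only [Finset.mem_union]; tauto)), key y1 x y2 x' y3 (by first | rfl | (ext i; simp only [Finset.mem_union]; tauto)), key y1 y2 x x' y3 (by first | rfl | (ext i; simp only [Finset.mem_union]; tauto)), key x x' y1 y3 y2 (by first | rfl | (ext i; simp only [Finset.mem_union]; tauto)), key y1 x y3 x' y2 (by first | rfl | (ext i; simp only [Finset.mem_union]; tauto)), key y1 y3 x x' y2 (by first | rfl | (ext i; simp only [Finset.mem_union]; tauto)), key x x' y2 y1 y3 (by first | rfl | (ext i; simp only [Finset.mem_union]; tauto)), key y2 x y1 x' y3 (by first | rfl | (ext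 i; simp only [Finset.mem_union]; tauto)), key y2 y1 x x' y3 (by first | rfl | (ext i; simp only [Finset.mem_union]; tauto)), key x x' y2 y3 y1 (by first | rfl | (ext i; simp only [Finset.mem_union]; tauto)), key y2 x y3 x' y1 (by first | rfl | (ext i; simp only [Finset.mem_union]; tauto)), key y2 y3 x x' y1 (by first | rfl | (ext i; simp only [Finset.mem_union]; tauto)), key x x' y3 y1 y2 (by first | rfl | (ext i; simp only [Finset.mem_union]; tauto)), key y3 x y1 x' y2 (by first | rfl | (ext i; simp only [Finset.mem_union]; tauto)), key y3 y1 x x' y2 (by first | rfl | (ext i; simp only [Finset.mem_union]; tauto)), key x x' y3 y2 y1 (by first | rfl | (ext i; simp only [Finset.mem_union]; tauto)), key y3 x y2 x' y1 (by first | rfl | (ext i; simp only [Finset.mem_union]; tauto)), key y3 y2 x x' y1 (by first | rfl | (ext i; simp only [Finset.mem_union]; tauto))]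
  ring

theorem Sw_len (a b x0 x1 x2 x3 : List (Fin 5))
    (h : a.length + x0.length + x1.length + x2.length + x3.length + b.length ≠ 5)
    (h' : a.length + x0.length + x1.length + x2.length + x3.length + b.length ≠ 6) :
    Sw a b x0 x1 x2 x3 = 0 := by
  have key : ∀ x y z w : List (Fin 5), x.length + y.length + z.length + w.length =
      x0.length + x1.length + x2.length + x3.length → h4 a b x y z w = 0 := by
    intro x y z w hu
    unfold h4
    apply phi_len
    · simp only [List.length_append]; omega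
    · simp only [List.length_append]; omega
  unfold Sw
  rw [key x0 x1 x2 x3 (by omega), key x0 x1 x3 x2 (by omega), key x0 x2 x1 x3 (by omega), key x0 x2 x3 x1 (by omega), key x0 x3 x1 x2 (by omega), key x0 x3 x2 x1 (by omega), key x1 x0 x2 x3 (by omega), key x1 x0 x3 x2 (by omega), key x1 x2 x0 x3 (by omega), key x1 x2 x3 x0 (by omega), key x1 x3 x0 x2 (by omega), key x1 x3 x2 x0 (by omega), key x2 x0 x1 x3 (by omega), key x2 x0 x3 x1 (by omega), key x2 x1 x0 x3 (by omega), key x2 x1 x3 x0 (by omega), key x2 x3 x0 x1 (by omega), key x2 x3 x1 x0 (by omega), key x3 x0 x1 x2 (by omega), key x3 x0 x2 x1 (by omega), key x3 x1 x0 x2 (by omega), key x3 x1 x2 x0 (by omega), key x3 x2 x0 x1 (by omega), key x3 x2 x1 x0 (by omega)]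
  ring

theorem Qw_len (a b x x' y1 y2 y3 : List (Fin 5))
    (h : a.length + x.length + x'.length + y1.length + y2.length + y3.length + b.length ≠ 5)
    (h' : a.length + x.length + x'.length + y1.length + y2.length + y3.length + b.length ≠ 6) :
    Qw a b x x' y1 y2 y3 = 0 := by
  have key : ∀ p q r s t : List (Fin 5), p.length + q.length + r.length + s.length + t.length =
      x.length + x'.length + y1.length + y2.length + y3.length → h5 a b p q r s t = 0 := by
    intro p q r s t hu
    unfold h5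
    apply phi_len
    · simp only [List.length_append]; omega
    · simp only [List.length_append]; omega
  unfold Qw
  rw [key x x' y1 y2 y3 (by omega), key y1 x y2 x' y3 (by omega), key y1 y2 x x' y3 (by omega), key x x' y1 y3 y2 (by omega), key y1 x y3 x' y2 (by omega), key y1 y3 x x' y2 (by omega), key x x' y2 y1 y3 (by omega), key y2 x y1 x' y3 (by omega), key y2 y1 x x' y3 (by omega), key x x' y2 y3 y1 (by omega), key y2 x y3 x' y1 (by omega), key y2 y3 x x' y1 (by omega), key x x' y3 y1 y2 (by omega), key y3 x y1 x' y2 (by omega), key y3 y1 x x' y2 (by omega), key x x' y3 y2 y1 (by omega), key y3 x y2 x' y1 (by omega), key y3 y2 x x' y1 (by omega)]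
  ring

theorem mod4_cast (n : ℕ) (h : Nat.beq (Nat.mod n 4) 0 = true) : (n : ZMod 4) = 0 := by
  have := Nat.eq_of_beq_eq_true h
  exact (ZMod.natCast_eq_zero_iff n 4).2 (Nat.dvd_of_mod_eq_zero this)

theorem Sw6 (a b : List (Fin 5)) : ∀ x0 x1 x2 x3 : List (Fin 5),
    x0 ≠ [] → x1 ≠ [] → x2 ≠ [] → x3 ≠ [] →
    a.length + x0.length + x1.length + x2.length + x3.length + b.length = 6 →
    Sw a b x0 x1 x2 x3 = 0 := by
  refine sort4 (fun l => (bl l).2) _ ?_ ?_ ?_ ?_
  · intro x0 x1 x2 x3 h n0 n1 n2 n3 hl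
    rw [Sw_01, h n1 n0 n2 n3 (by omega), neg_zero]
  · intro x0 x1 x2 x3 h n0 n1 n2 n3 hl
    rw [Sw_12, h n0 n2 n1 n3 (by omega), neg_zero]
  · intro x0 x1 x2 x3 h n0 n1 n2 n3 hl
    rw [Sw_23, h n0 n1 n3 n2 (by omega), neg_zero]
  · intro x0 x1 x2 x3 k01 k12 k23 n0 n1 n2 n3 hl
    by_cases hf : (a ++ (x0 ++ (x1 ++ (x2 ++ (x3 ++ b))))).toFinset = Finset.univ
    · have hm := mem_fw _ hf
      have e6 : (a ++ (x0 ++ (x1 ++ (x2 ++ (x3 ++ b))))).length = 6 := by
        simp only [List.length_append]; omega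
      rw [e6] at hm
      have l0 := List.length_pos_iff.2 n0
      have l1 := List.length_pos_iff.2 n1
      have l2 := List.length_pos_iff.2 n2
      have l3 := List.length_pos_iff.2 n3
      have hc : (a.length, x0.length, x1.length, x2.length, x3.length) ∈ cuts4 6 := by
        obtain ⟨m0, h0⟩ : ∃ m, x0.length = m + 1 := ⟨x0.length - 1, by omega⟩
        obtain ⟨m1, h1⟩ : ∃ m, x1.length = m + 1 := ⟨x1.length - 1, by omega⟩
        obtain ⟨m2, h2⟩ : ∃ m, x2.length = m + 1 := ⟨x2.length - 1, by omega⟩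
        obtain ⟨m3, h3⟩ : ∃ m, x3.length = m + 1 := ⟨x3.length - 1, by omega⟩
        rw [h0, h1, h2, h3]
        simp only [cuts4, List.mem_flatMap, List.mem_range]
        refine ⟨a.length, by omega, m0, by omega, m1, by omega, m2, by omega, m3, by omega, ?_⟩
        rw [if_pos (by omega)]
        simp
      have := List.all_eq_true.1 (List.all_eq_true.1 cS _ hm) _ hc
      simp only [chkS, List.take_left', List.drop_left'] at this
      have hs : srt4 (bl x0) (bl x1) (bl x2) (bl x3) = true := by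
        unfold srt4
        simp only [Bool.and_eq_true]
        exact ⟨⟨Nat.ble_eq_true_of_le k01, Nat.ble_eq_true_of_le k12⟩, Nat.ble_eq_true_of_le k23⟩
      rw [hs] at this
      rw [Sw_full _ _ _ _ _ _ hf]
      exact mod4_cast _ (by simpa using this)
    · exact Sw_not_full _ _ _ _ _ _ hf

theorem tf4 (a b x y z w : List (Fin 5)) : (a ++ (x ++ (y ++ (z ++ (w ++ b))))).toFinset =
    a.toFinset ∪ b.toFinset ∪ (x.toFinset ∪ (y.toFinset ∪ (z.toFinset ∪ w.toFinset))) := by
  ext i; simp only [List.mem_toFinset, List.mem_append, Finset.mem_union]; tauto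

theorem tf5 (a b x y z w : List (Fin 5)) : (a ++ (x ++ (x ++ (y ++ (z ++ (w ++ b)))))).toFinset =
    a.toFinset ∪ b.toFinset ∪ (x.toFinset ∪ (y.toFinset ∪ (z.toFinset ∪ w.toFinset))) := by
  ext i; simp only [List.mem_toFinset, List.mem_append, Finset.mem_union]; tauto

theorem un1 (p q r s : Finset (Fin 5)) : q ∪ (p ∪ (r ∪ s)) = p ∪ (q ∪ (r ∪ s)) := by
  ext i; simp only [Finset.mem_union]; tauto

theorem un2 (p q r s : Finset (Fin 5)) : r ∪ (p ∪ (q ∪ s)) = p ∪ (q ∪ (r ∪ s)) := by
  ext i; simp only [Finset.mem_union]; tauto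

theorem un3 (p q r s : Finset (Fin 5)) : s ∪ (p ∪ (q ∪ r)) = p ∪ (q ∪ (r ∪ s)) := by
  ext i; simp only [Finset.mem_union]; tauto

theorem hcuts4 (a x0 x1 x2 x3 : List (Fin 5)) (m : ℕ) (hm : m ≤ 6)
    (n0 : x0 ≠ []) (n1 : x1 ≠ []) (n2 : x2 ≠ []) (n3 : x3 ≠ [])
    (hl : a.length + x0.length + x1.length + x2.length + x3.length ≤ m) :
    (a.length, x0.length, x1.length, x2.length, x3.length) ∈ cuts4 m := by
  have l0 := List.length_pos_iff.2 n0
  have l1 := List.length_pos_iff.2 n1
  have l2 := List.length_pos_iff.2 n2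
  have l3 := List.length_pos_iff.2 n3
  obtain ⟨m0, h0⟩ : ∃ m, x0.length = m + 1 := ⟨x0.length - 1, by omega⟩
  obtain ⟨m1, h1⟩ : ∃ m, x1.length = m + 1 := ⟨x1.length - 1, by omega⟩
  obtain ⟨m2, h2⟩ : ∃ m, x2.length = m + 1 := ⟨x2.length - 1, by omega⟩
  obtain ⟨m3, h3⟩ : ∃ m, x3.length = m + 1 := ⟨x3.length - 1, by omega⟩
  rw [h0, h1, h2, h3]
  simp only [cuts4, List.mem_flatMap, List.mem_range]
  refine ⟨a.length, by omega, m0, by omega, m1, by omega, m2, by omega, m3, by omega, ?_⟩
  rw [if_pos (by omega)]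
  simp

theorem Gw5_zero (a b x0 x1 x2 x3 : List (Fin 5))
    (hl : a.length + x0.length + x1.length + x2.length + x3.length + b.length = 5)
    (hf : (a ++ (x0 ++ (x1 ++ (x2 ++ (x3 ++ b))))).toFinset ≠ Finset.univ) :
    Gw a b x0 x1 x2 x3 = 0 := by
  have e : ∀ x y z w : List (Fin 5), x.toFinset ∪ (y.toFinset ∪ (z.toFinset ∪ w.toFinset)) =
      x0.toFinset ∪ (x1.toFinset ∪ (x2.toFinset ∪ x3.toFinset)) → Qw a b x x y z w = 0 := by
    intro x y z w hu
    apply Qw_not_full
    intro hc
    apply hf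
    rw [tf5] at hc
    rw [tf4, ← hu, hc]
  unfold Gw
  rw [Sw_not_full _ _ _ _ _ _ hf, e x0 x1 x2 x3 rfl,
    e x1 x0 x2 x3 (un1 _ _ _ _), e x2 x0 x1 x3 (un2 _ _ _ _), e x3 x0 x1 x2 (un3 _ _ _ _)]
  ring

theorem Gw_full (a b x0 x1 x2 x3 : List (Fin 5))
    (hf : (a ++ (x0 ++ (x1 ++ (x2 ++ (x3 ++ b))))).toFinset = Finset.univ) :
    Gw a b x0 x1 x2 x3 = (gn (bl a) (bl b) (bl x0) (bl x1) (bl x2) (bl x3) : ZMod 4) := by
  have e : ∀ x y z w : List (Fin 5), x.toFinset ∪ (y.toFinset ∪ (z.toFinset ∪ w.toFinset)) =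
      x0.toFinset ∪ (x1.toFinset ∪ (x2.toFinset ∪ x3.toFinset)) →
      Qw a b x x y z w = (qn (bl a) (bl b) (bl x) (bl x) (bl y) (bl z) (bl w) : ZMod 4) := by
    intro x y z w hu
    apply Qw_full
    rw [tf5, hu, ← tf4, hf]
  unfold Gw gn
  rw [Sw_full _ _ _ _ _ _ hf, e x0 x1 x2 x3 rfl,
    e x1 x0 x2 x3 (un1 _ _ _ _), e x2 x0 x1 x3 (un2 _ _ _ _), e x3 x0 x1 x2 (un3 _ _ _ _)]
  push_cast
  have two : (-2 : ZMod 4) = 2 := by decide
  rw [sub_eq_add_neg, ← neg_mul, two]

theorem Gw5 (a b : List (Fin 5)) : ∀ x0 x1 x2 x3 : List (Fin 5),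
    x0 ≠ [] → x1 ≠ [] → x2 ≠ [] → x3 ≠ [] →
    a.length + x0.length + x1.length + x2.length + x3.length + b.length = 5 →
    Gw a b x0 x1 x2 x3 = 0 := by
  refine sort4 (fun l => (bl l).2) _ ?_ ?_ ?_ ?_
  · intro x0 x1 x2 x3 h n0 n1 n2 n3 hl
    rw [Gw_01, h n1 n0 n2 n3 (by omega), neg_zero]
  · intro x0 x1 x2 x3 h n0 n1 n2 n3 hl
    rw [Gw_12, h n0 n2 n1 n3 (by omega), neg_zero]
  · intro x0 x1 x2 x3 h n0 n1 n2 n3 hl
    rw [Gw_23, h n0 n1 n3 n2 (by omega), neg_zero]
  · intro x0 x1 x2 x3 k01 k12 k23 n0 n1 n2 n3 hl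
    by_cases hf : (a ++ (x0 ++ (x1 ++ (x2 ++ (x3 ++ b))))).toFinset = Finset.univ
    · have hm := mem_fw _ hf
      have e6 : (a ++ (x0 ++ (x1 ++ (x2 ++ (x3 ++ b))))).length = 5 := by
        simp only [List.length_append]; omega
      rw [e6] at hm
      have hc := hcuts4 a x0 x1 x2 x3 5 (by omega) n0 n1 n2 n3 (by omega)
      have := List.all_eq_true.1 (List.all_eq_true.1 cG _ hm) _ hc
      simp only [chkG, List.take_left', List.drop_left'] at this
      have hs : srt4 (bl x0) (bl x1) (bl x2) (bl x3) = true := by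
        unfold srt4
        simp only [Bool.and_eq_true]
        exact ⟨⟨Nat.ble_eq_true_of_le k01, Nat.ble_eq_true_of_le k12⟩, Nat.ble_eq_true_of_le k23⟩
      rw [hs] at this
      rw [Gw_full _ _ _ _ _ _ hf]
      exact mod4_cast _ (by simpa using this)
    · exact Gw5_zero _ _ _ _ _ _ hl hf

/-- The value of the functional on the identity at words. -/
theorem Gw_zero (a b x0 x1 x2 x3 : List (Fin 5)) (n0 : x0 ≠ []) (n1 : x1 ≠ []) (n2 : x2 ≠ [])
    (n3 : x3 ≠ []) : Gw a b x0 x1 x2 x3 = 0 := by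
  have l0 := List.length_pos_iff.2 n0
  have l1 := List.length_pos_iff.2 n1
  have l2 := List.length_pos_iff.2 n2
  have l3 := List.length_pos_iff.2 n3
  by_cases h5 : a.length + x0.length + x1.length + x2.length + x3.length + b.length = 5
  · exact Gw5 a b x0 x1 x2 x3 n0 n1 n2 n3 h5
  have hS : Sw a b x0 x1 x2 x3 = 0 := by
    by_cases h6 : a.length + x0.length + x1.length + x2.length + x3.length + b.length = 6
    · exact Sw6 a b x0 x1 x2 x3 n0 n1 n2 n3 h6
    · exact Sw_len _ _ _ _ _ _ h5 h6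
  have hQ : ∀ x y z w : List (Fin 5), 1 ≤ x.length →
      x.length + y.length + z.length + w.length =
      x0.length + x1.length + x2.length + x3.length → Qw a b x x y z w = 0 := by
    intro x y z w hx hu
    by_cases h6 : a.length + x0.length + x1.length + x2.length + x3.length + b.length = 4
    · -- total length five with a repeated letter
      apply Qw_not_full
      intro hc
      have h1 : (a ++ (x ++ (y ++ (z ++ (w ++ b))))).toFinset = Finset.univ := by
        rw [tf4, ← tf5, hc]
      have h2 := List.toFinset_card_le (a ++ (x ++ (y ++ (z ++ (w ++ b)))))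
      rw [h1] at h2
      simp only [List.length_append, Finset.card_univ, Fintype.card_fin] at h2
      omega
    · apply Qw_len
      · omega
      · omega
  unfold Gw
  rw [hS, hQ x0 x1 x2 x3 l0 rfl, hQ x1 x0 x2 x3 l1 (by omega), hQ x2 x0 x1 x3 l2 (by omega),
    hQ x3 x0 x1 x2 l3 (by omega)]
  ring

/-- The polarised quadratic part, doubled, is killed at words of total length six. -/
def Dw (a b x x' y1 y2 y3 : List (Fin 5)) : ZMod 4 :=
  2 * (Qw a b x x' y1 y2 y3 + Qw a b x' x y1 y2 y3)

theorem Dw_swap (a b x x' y1 y2 y3 : List (Fin 5)) : Dw a b x' x y1 y2 y3 = Dw a b x x' y1 y2 y3 := by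
  unfold Dw; ring

theorem un5 (p q r : Finset (Fin 5)) : q ∪ (p ∪ r) = p ∪ (q ∪ r) := by
  ext i; simp only [Finset.mem_union]; tauto

theorem Dw6 (a b : List (Fin 5)) (x x' : List (Fin 5)) (hk : (bl x).2 ≤ (bl x').2) :
    ∀ y1 y2 y3 : List (Fin 5),
    x ≠ [] → x' ≠ [] → y1 ≠ [] → y2 ≠ [] → y3 ≠ [] →
    a.length + x.length + x'.length + y1.length + y2.length + y3.length + b.length = 6 →
    Dw a b x x' y1 y2 y3 = 0 := by
  refine sort3 (fun l => (bl l).2) _ ?_ ?_ ?_
  · intro y1 y2 y3 h n n' n1 n2 n3 hl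
    have := h n n' n2 n1 n3 (by omega)
    unfold Dw at this ⊢
    rw [Qw_y12, Qw_y12 a b x' x] 
    exact this
  · intro y1 y2 y3 h n n' n1 n2 n3 hl
    have := h n n' n1 n3 n2 (by omega)
    unfold Dw at this ⊢
    rw [Qw_y23, Qw_y23 a b x' x]
    exact this
  · intro y1 y2 y3 k12 k23 n n' n1 n2 n3 hl
    by_cases hf : (a ++ (x ++ (x' ++ (y1 ++ (y2 ++ (y3 ++ b)))))).toFinset = Finset.univ
    · have hf' : (a ++ (x' ++ (x ++ (y1 ++ (y2 ++ (y3 ++ b)))))).toFinset = Finset.univ := by
        rw [← hf]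
        simp only [List.toFinset_append]
        rw [un5 x.toFinset]
      have hm := mem_fw _ hf
      have e6 : (a ++ (x ++ (x' ++ (y1 ++ (y2 ++ (y3 ++ b)))))).length = 6 := by
        simp only [List.length_append]; omega
      rw [e6] at hm
      have l0 := List.length_pos_iff.2 n
      have l0' := List.length_pos_iff.2 n'
      have l1 := List.length_pos_iff.2 n1
      have l2 := List.length_pos_iff.2 n2
      have l3 := List.length_pos_iff.2 n3
      have hc : (a.length, x.length, x'.length, y1.length, y2.length, y3.length) ∈ cuts5 := by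
        have : ∀ p q r s t u v : ℕ, 0 < q → 0 < r → 0 < s → 0 < t → 0 < u →
            p + q + r + s + t + u + v = 6 → (p, q, r, s, t, u) ∈ cuts5 := by
          intro p q r s t u v hq hr hs ht hu h
          have hp : p ≤ 1 := by omega
          have hq' : q ≤ 2 := by omega
          have hr' : r ≤ 2 := by omega
          have hs' : s ≤ 2 := by omega
          have ht' : t ≤ 2 := by omega
          have hu' : u ≤ 2 := by omega
          have hsum : p + q + r + s + t + u ≤ 6 := by omega
          clear h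
          interval_cases p <;> interval_cases q <;> interval_cases r <;> interval_cases s <;>
            interval_cases t <;> interval_cases u <;> first | omega | decide
        exact this _ _ _ _ _ _ b.length l0 l0' l1 l2 l3 hl
      have := List.all_eq_true.1 (List.all_eq_true.1 cD _ hm) _ hc
      simp only [chkD, List.take_left', List.drop_left'] at this
      have hs : (Nat.ble (bl x).2 (bl x').2 && Nat.ble (bl y1).2 (bl y2).2 &&
          Nat.ble (bl y2).2 (bl y3).2) = true := by
        simp only [Bool.and_eq_true]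
        exact ⟨⟨Nat.ble_eq_true_of_le hk, Nat.ble_eq_true_of_le k12⟩, Nat.ble_eq_true_of_le k23⟩
      rw [hs] at this
      unfold Dw
      rw [Qw_full _ _ _ _ _ _ _ hf, Qw_full _ _ _ _ _ _ _ hf']
      have h2 := mod4_cast _ (by simpa using this)
      push_cast at h2
      exact h2
    · have hf' : (a ++ (x' ++ (x ++ (y1 ++ (y2 ++ (y3 ++ b)))))).toFinset ≠ Finset.univ := by
        intro hc
        apply hf
        rw [← hc]
        simp only [List.toFinset_append]
        rw [un5 x'.toFinset]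
      unfold Dw
      rw [Qw_not_full _ _ _ _ _ _ _ hf, Qw_not_full _ _ _ _ _ _ _ hf']
      ring

theorem two_phi5 (l : List (Fin 5)) (h : l.length = 5) : 2 * phi l = 0 := by
  unfold phi
  split_ifs with hl
  · have : tbl (bl l) = 0 ∨ tbl (bl l) = 2 := by
      unfold tbl bl
      rw [h]
      have h1 : Nat.beq 5 6 = false := rfl
      have h2 : Nat.beq 5 5 = true := rfl
      simp only [h1, h2, cond_true, cond_false]
      cases Nat.beq (val l) 194
      · left; rfl
      · right; rfl
    rcases this with h0 | h0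
    · rw [h0]; decide
    · rw [h0]; decide
  · simp

theorem Dw5 (a b x x' y1 y2 y3 : List (Fin 5))
    (hl : a.length + x.length + x'.length + y1.length + y2.length + y3.length + b.length = 5) :
    Dw a b x x' y1 y2 y3 = 0 := by
  have key : ∀ p q r s t : List (Fin 5),
      p.length + q.length + r.length + s.length + t.length =
      x.length + x'.length + y1.length + y2.length + y3.length → 2 * h5 a b p q r s t = 0 := by
    intro p q r s t hu
    unfold h5
    apply two_phi5
    simp only [List.length_append]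
    omega
  have hQ : ∀ p q r s t : List (Fin 5),
      p.length + q.length + r.length + s.length + t.length =
      x.length + x'.length + y1.length + y2.length + y3.length → 2 * Qw a b p q r s t = 0 := by
    intro p q r s t hu
    unfold Qw
    simp only [mul_add]
    rw [key p q r s t (by omega), key r p s q t (by omega), key r s p q t (by omega), key p q r t s (by omega), key r p t q s (by omega), key r t p q s (by omega), key p q s r t (by omega), key s p r q t (by omega), key s r p q t (by omega), key p q s t r (by omega), key s p t q r (by omega), key s t p q r (by omega), key p q t r s (by omega), key t p r q s (by omega), key t r p q s (by omega), key p q t s r (by omega), key t p s q r (by omega), key t s p q r (by omega)]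
    ring
  unfold Dw
  rw [mul_add, hQ x x' y1 y2 y3 rfl, hQ x' x y1 y2 y3 (by omega), add_zero]

theorem Dw_zero (a b x x' y1 y2 y3 : List (Fin 5)) (n : x ≠ []) (n' : x' ≠ []) (n1 : y1 ≠ [])
    (n2 : y2 ≠ []) (n3 : y3 ≠ []) : Dw a b x x' y1 y2 y3 = 0 := by
  by_cases h5 : a.length + x.length + x'.length + y1.length + y2.length + y3.length + b.length = 5
  · exact Dw5 a b x x' y1 y2 y3 h5
  by_cases h6 : a.length + x.length + x'.length + y1.length + y2.length + y3.length + b.length = 6
  · rcases le_total (bl x).2 (bl x').2 with h | h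
    · exact Dw6 a b x x' h y1 y2 y3 n n' n1 n2 n3 h6
    · rw [← Dw_swap]
      exact Dw6 a b x' x h y1 y2 y3 n' n n1 n2 n3 (by omega)
  · unfold Dw
    rw [Qw_len _ _ _ _ _ _ _ h5 h6, Qw_len _ _ _ _ _ _ _ (by omega) (by omega)]
    ring

/-! ### the free non-unital algebra and the functional -/

abbrev W := FreeSemigroup (Fin 5)

abbrev A := MonoidAlgebra (ZMod 4) W

def toL (w : W) : List (Fin 5) := w.head :: w.tail

theorem toL_ne (w : W) : toL w ≠ [] := by simp [toL]

theorem toL_mul (u v : W) : toL (u * v) = toL u ++ toL v := by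
  simp [toL, FreeSemigroup.head_mul, FreeSemigroup.tail_mul]

noncomputable def L (a b : List (Fin 5)) : A →+ ZMod 4 :=
  (Finsupp.liftAddHom fun w : W => AddMonoidHom.mulRight (phi (a ++ (toL w ++ b)))).comp
    (MonoidAlgebra.coeffAddEquiv (R := ZMod 4) (M := W)).toAddMonoidHom

theorem L_single (a b : List (Fin 5)) (w : W) (c : ZMod 4) :
    L a b (MonoidAlgebra.single w c) = c * phi (a ++ (toL w ++ b)) := by
  simp [L]

theorem A_induction {P : A → Prop} (x : A) (h0 : P 0) (ha : ∀ x y, P x → P y → P (x + y))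
    (hs : ∀ w, P (MonoidAlgebra.single w 1)) : P x := by
  induction x using MonoidAlgebra.induction_linear with
  | zero => exact h0
  | add x y hx hy => exact ha x y hx hy
  | single w r =>
    obtain ⟨n, rfl⟩ : ∃ n : ℕ, (n : ZMod 4) = r := ⟨r.val, ZMod.natCast_zmod_val r⟩
    induction n with
    | zero => simpa using h0
    | succ n ih =>
      rw [Nat.cast_succ, MonoidAlgebra.single_add]
      exact ha _ _ ih (hs w)

theorem L_mul_single (a b : List (Fin 5)) (x : A) (w : W) :
    L a b (x * MonoidAlgebra.single w 1) = L a (toL w ++ b) x := by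
  induction x using MonoidAlgebra.induction_linear with
  | zero => simp
  | add x y hx hy => rw [add_mul, map_add, map_add, hx, hy]
  | single u r =>
    rw [MonoidAlgebra.single_mul_single, L_single, L_single, toL_mul, mul_one, List.append_assoc]

theorem L_single_mul (a b : List (Fin 5)) (x : A) (w : W) :
    L a b (MonoidAlgebra.single w 1 * x) = L (a ++ toL w) b x := by
  induction x using MonoidAlgebra.induction_linear with
  | zero => simp
  | add x y hx hy => rw [mul_add, map_add, map_add, hx, hy]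
  | single u r =>
    rw [MonoidAlgebra.single_mul_single, L_single, L_single, toL_mul, one_mul, List.append_assoc,
      List.append_assoc]

theorem L_mul_congr_left (x x' : A) (h : ∀ a b, L a b x = L a b x') (y : A) :
    ∀ a b, L a b (x * y) = L a b (x' * y) := by
  intro a b
  induction y using A_induction with
  | h0 => simp
  | ha y z hy hz => rw [mul_add, mul_add, map_add, map_add, hy, hz]
  | hs w => rw [L_mul_single, L_mul_single, h]

theorem L_mul_congr_right (x x' : A) (h : ∀ a b, L a b x = L a b x') (y : A) :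
    ∀ a b, L a b (y * x) = L a b (y * x') := by
  intro a b
  induction y using A_induction with
  | h0 => simp
  | ha y z hy hz => rw [add_mul, add_mul, map_add, map_add, hy, hz]
  | hs w => rw [L_single_mul, L_single_mul, h]

/-- The syntactic congruence of the functional. -/
noncomputable def con : RingCon A where
  r x y := ∀ a b, L a b x = L a b y
  iseqv := ⟨fun _ _ _ => rfl, fun h a b => (h a b).symm, fun h h' a b => (h a b).trans (h' a b)⟩
  add' := by
    intro w x y z h h' a b
    rw [map_add, map_add, h, h']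
  mul' := by
    intro w x y z h h' a b
    rw [L_mul_congr_left w x h y a b, L_mul_congr_right y z h' x a b]

/-- The ring of the counterexample. -/
abbrev Rg : Type := con.Quotient

noncomputable instance : NonUnitalRing Rg := inferInstance

noncomputable def S (x0 x1 x2 x3 : A) : A := x0 * (x1 * (x2 * x3)) - x0 * (x1 * (x3 * x2)) - x0 * (x2 * (x1 * x3)) + x0 * (x2 * (x3 * x1)) + x0 * (x3 * (x1 * x2)) - x0 * (x3 * (x2 * x1)) - x1 * (x0 * (x2 * x3)) + x1 * (x0 * (x3 * x2)) + x1 * (x2 * (x0 * x3)) - x1 * (x2 * (x3 * x0)) - x1 * (x3 * (x0 * x2)) + x1 * (x3 * (x2 * x0)) + x2 * (x0 * (x1 * x3)) - x2 * (x0 * (x3 * x1)) - x2 * (x1 * (x0 * x3)) + x2 * (x1 * (x3 * x0)) + x2 * (x3 * (x0 * x1)) - x2 * (x3 * (x1 * x0)) - x3 * (x0 * (x1 * x2)) + x3 * (x0 * (x2 * x1)) + x3 * (x1 * (x0 * x2)) - x3 * (x1 * (x2 * x0)) - x3 * (x2 * (x0 * x1)) + x3 * (x2 * (x1 * x0))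

noncomputable def Q (x x' y1 y2 y3 : A) : A := x * (x' * (y1 * (y2 * y3))) + y1 * (x * (y2 * (x' * y3))) + y1 * (y2 * (x * (x' * y3))) + x * (x' * (y1 * (y3 * y2))) + y1 * (x * (y3 * (x' * y2))) + y1 * (y3 * (x * (x' * y2))) + x * (x' * (y2 * (y1 * y3))) + y2 * (x * (y1 * (x' * y3))) + y2 * (y1 * (x * (x' * y3))) + x * (x' * (y2 * (y3 * y1))) + y2 * (x * (y3 * (x' * y1))) + y2 * (y3 * (x * (x' * y1))) + x * (x' * (y3 * (y1 * y2))) + y3 * (x * (y1 * (x' * y2))) + y3 * (y1 * (x * (x' * y2))) + x * (x' * (y3 * (y2 * y1))) + y3 * (x * (y2 * (x' * y1))) + y3 * (y2 * (x * (x' * y1)))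

theorem L_S (a b : List (Fin 5)) (u0 u1 u2 u3 : W) :
    L a b (S (MonoidAlgebra.single u0 1) (MonoidAlgebra.single u1 1) (MonoidAlgebra.single u2 1)
      (MonoidAlgebra.single u3 1)) = Sw a b (toL u0) (toL u1) (toL u2) (toL u3) := by
  unfold S Sw h4
  simp only [map_add, map_sub, MonoidAlgebra.single_mul_single, L_single, toL_mul, mul_one, one_mul,
    List.append_assoc]

theorem L_Q (a b : List (Fin 5)) (u u' v1 v2 v3 : W) :
    L a b (Q (MonoidAlgebra.single u 1) (MonoidAlgebra.single u' 1) (MonoidAlgebra.single v1 1)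
      (MonoidAlgebra.single v2 1) (MonoidAlgebra.single v3 1)) =
      Qw a b (toL u) (toL u') (toL v1) (toL v2) (toL v3) := by
  unfold Q Qw h5
  simp only [map_add, MonoidAlgebra.single_mul_single, L_single, toL_mul, mul_one, one_mul,
    List.append_assoc]

theorem Q_add1 (x z x' y1 y2 y3 : A) : Q (x + z) x' y1 y2 y3 = Q x x' y1 y2 y3 + Q z x' y1 y2 y3 := by
  unfold Q; simp only [add_mul, mul_add]; abel

theorem Q_add2 (x x' z y1 y2 y3 : A) : Q x (x' + z) y1 y2 y3 = Q x x' y1 y2 y3 + Q x z y1 y2 y3 := by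
  unfold Q; simp only [add_mul, mul_add]; abel

theorem Q_add3 (x x' y1 z y2 y3 : A) : Q x x' (y1 + z) y2 y3 = Q x x' y1 y2 y3 + Q x x' z y2 y3 := by
  unfold Q; simp only [add_mul, mul_add]; abel

theorem Q_add4 (x x' y1 y2 z y3 : A) : Q x x' y1 (y2 + z) y3 = Q x x' y1 y2 y3 + Q x x' y1 z y3 := by
  unfold Q; simp only [add_mul, mul_add]; abel

theorem Q_add5 (x x' y1 y2 y3 z : A) : Q x x' y1 y2 (y3 + z) = Q x x' y1 y2 y3 + Q x x' y1 y2 z := by
  unfold Q; simp only [add_mul, mul_add]; abel

theorem S_add0 (x0 z x1 x2 x3 : A) : S (x0 + z) x1 x2 x3 = S x0 x1 x2 x3 + S z x1 x2 x3 := by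
  unfold S; simp only [add_mul, mul_add]; abel

theorem S_add1 (x0 x1 z x2 x3 : A) : S x0 (x1 + z) x2 x3 = S x0 x1 x2 x3 + S x0 z x2 x3 := by
  unfold S; simp only [add_mul, mul_add]; abel

theorem S_add2 (x0 x1 x2 z x3 : A) : S x0 x1 (x2 + z) x3 = S x0 x1 x2 x3 + S x0 x1 z x3 := by
  unfold S; simp only [add_mul, mul_add]; abel

theorem S_add3 (x0 x1 x2 x3 z : A) : S x0 x1 x2 (x3 + z) = S x0 x1 x2 x3 + S x0 x1 x2 z := by
  unfold S; simp only [add_mul, mul_add]; abel

/-- The doubled polarisation is killed by the functional. -/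
theorem D_zero (a b : List (Fin 5)) (x x' y1 y2 y3 : A) :
    2 * (L a b (Q x x' y1 y2 y3) + L a b (Q x' x y1 y2 y3)) = 0 := by
  induction x using A_induction with
  | h0 => simp [Q]
  | ha x z hx hz =>
    rw [Q_add1, Q_add2, map_add, map_add]
    linear_combination hx + hz
  | hs w =>
  induction x' using A_induction with
  | h0 => simp [Q]
  | ha x z hx hz =>
    rw [Q_add1, Q_add2, map_add, map_add]
    linear_combination hx + hz
  | hs w' =>
  induction y1 using A_induction with
  | h0 => simp [Q]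
  | ha x z hx hz =>
    rw [Q_add3, Q_add3, map_add, map_add]
    linear_combination hx + hz
  | hs v1 =>
  induction y2 using A_induction with
  | h0 => simp [Q]
  | ha x z hx hz =>
    rw [Q_add4, Q_add4, map_add, map_add]
    linear_combination hx + hz
  | hs v2 =>
  induction y3 using A_induction with
  | h0 => simp [Q]
  | ha x z hx hz =>
    rw [Q_add5, Q_add5, map_add, map_add]
    linear_combination hx + hz
  | hs v3 =>
    rw [L_Q, L_Q]
    exact Dw_zero a b _ _ _ _ _ (toL_ne _) (toL_ne _) (toL_ne _) (toL_ne _) (toL_ne _)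

noncomputable def G (a b : List (Fin 5)) (x0 x1 x2 x3 : A) : ZMod 4 := L a b (S x0 x1 x2 x3) -
  2 * (L a b (Q x0 x0 x1 x2 x3) + L a b (Q x1 x1 x0 x2 x3) + L a b (Q x2 x2 x0 x1 x3) +
    L a b (Q x3 x3 x0 x1 x2))

theorem G_zero (a b : List (Fin 5)) (x0 x1 x2 x3 : A) : G a b x0 x1 x2 x3 = 0 := by
  induction x0 using A_induction with
  | h0 => simp [G, S, Q]
  | ha x z hx hz =>
    have hd := D_zero a b x z x1 x2 x3
    unfold G at hx hz ⊢
    rw [S_add0, Q_add1, Q_add2, Q_add2, Q_add3, Q_add3, Q_add3]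
    simp only [map_add]
    linear_combination hx + hz - hd
  | hs w0 =>
  induction x1 using A_induction with
  | h0 => simp [G, S, Q]
  | ha x z hx hz =>
    have hd := D_zero a b x z (MonoidAlgebra.single w0 1) x2 x3
    unfold G at hx hz ⊢
    rw [S_add1, Q_add3, Q_add1, Q_add2, Q_add2, Q_add4, Q_add4]
    simp only [map_add]
    linear_combination hx + hz - hd
  | hs w1 =>
  induction x2 using A_induction with
  | h0 => simp [G, S, Q]
  | ha x z hx hz =>
    have hd := D_zero a b x z (MonoidAlgebra.single w0 1) (MonoidAlgebra.single w1 1) x3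
    unfold G at hx hz ⊢
    rw [S_add2, Q_add4, Q_add4, Q_add1, Q_add2, Q_add2, Q_add5]
    simp only [map_add]
    linear_combination hx + hz - hd
  | hs w2 =>
  induction x3 using A_induction with
  | h0 => simp [G, S, Q]
  | ha x z hx hz =>
    have hd := D_zero a b x z (MonoidAlgebra.single w0 1) (MonoidAlgebra.single w1 1)
      (MonoidAlgebra.single w2 1)
    unfold G at hx hz ⊢
    rw [S_add3, Q_add5, Q_add5, Q_add5, Q_add1, Q_add2, Q_add2]
    simp only [map_add]
    linear_combination hx + hz - hd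
  | hs w3 =>
    unfold G
    rw [L_S, L_Q, L_Q, L_Q, L_Q]
    exact Gw_zero a b _ _ _ _ (toL_ne _) (toL_ne _) (toL_ne _) (toL_ne _)

/-! ### polynomials and their values -/

theorem polyVal_add {R : Type} [NonUnitalRing R] (r : ℕ → R) (f g : List ℕ →₀ ℤ) :
    polyVal r (f + g) = polyVal r f + polyVal r g := by
  unfold polyVal
  exact Finsupp.sum_add_index' (fun _ => zero_smul _ _) (fun _ _ _ => add_smul _ _ _)

theorem polyVal_single {R : Type} [NonUnitalRing R] (r : ℕ → R) (w : List ℕ) (c : ℤ) :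
    polyVal r (Finsupp.single w c) = c • wordVal r w := by
  unfold polyVal
  exact Finsupp.sum_single_index (zero_smul _ _)

theorem polyVal_zero {R : Type} [NonUnitalRing R] (r : ℕ → R) : polyVal r 0 = 0 := by
  unfold polyVal; exact Finsupp.sum_zero_index

noncomputable def ofList (F : List (List ℕ × ℤ)) : List ℕ →₀ ℤ :=
  (F.map fun t => Finsupp.single t.1 t.2).sum

theorem polyVal_ofList {R : Type} [NonUnitalRing R] (r : ℕ → R) (F : List (List ℕ × ℤ)) :
    polyVal r (ofList F) = (F.map fun t => t.2 • wordVal r t.1).sum := by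
  unfold ofList
  induction F with
  | nil => simpa using polyVal_zero r
  | cons t F ih =>
    rw [List.map_cons, List.sum_cons, List.map_cons, List.sum_cons, polyVal_add, polyVal_single, ih]

theorem ofList_apply (F : List (List ℕ × ℤ)) (w : List ℕ) :
    ofList F w = (F.map fun t => if t.1 = w then t.2 else 0).sum := by
  unfold ofList
  induction F with
  | nil => simp
  | cons t F ih =>
    rw [List.map_cons, List.sum_cons, List.map_cons, List.sum_cons, Finsupp.add_apply, ih,
      Finsupp.single_apply]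

theorem ofList_ne (F : List (List ℕ × ℤ)) (w : List ℕ) (h : ofList F w ≠ 0) :
    ∃ t ∈ F, t.1 = w := by
  by_contra hc
  push Not at hc
  apply h
  rw [ofList_apply]
  have : (F.map fun t => if t.1 = w then t.2 else 0) = F.map fun _ => (0 : ℤ) := by
    apply List.map_congr_left
    intro t ht
    rw [if_neg (hc t ht)]
  rw [this]
  simp

def FL : List (List ℕ × ℤ) := [([0, 1, 2, 3], 1), ([0, 1, 3, 2], -1), ([0, 2, 1, 3], -1), ([0, 2, 3, 1], 1), ([0, 3, 1, 2], 1), ([0, 3, 2, 1], -1), ([1, 0, 2, 3], -1), ([1, 0, 3, 2], 1), ([1, 2, 0, 3], 1), ([1, 2, 3, 0], -1), ([1, 3, 0, 2], -1), ([1, 3, 2, 0], 1), ([2, 0, 1, 3], 1), ([2, 0, 3, 1], -1), ([2, 1, 0, 3], -1), ([2, 1, 3, 0], 1), ([2, 3, 0, 1], 1), ([2, 3, 1, 0], -1), ([3, 0, 1, 2], -1), ([3, 0, 2, 1], 1), ([3, 1, 0, 2], 1), ([3, 1, 2, 0], -1), ([3, 2, 0, 1], -1), ([3, 2, 1, 0], 1), ([0, 0, 1, 2, 3], -2), ([1, 0, 2, 0, 3], -2), ([1, 2, 0, 0, 3], -2), ([0, 0, 1, 3, 2], -2), ([1, 0, 3, 0, 2], -2), ([1, 3, 0, 0, 2], -2), ([0, 0, 2, 1, 3],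 -2), ([2, 0, 1, 0, 3], -2), ([2, 1, 0, 0, 3], -2), ([0, 0, 2, 3, 1], -2), ([2, 0, 3, 0, 1], -2), ([2, 3, 0, 0, 1], -2), ([0, 0, 3, 1, 2], -2), ([3, 0, 1, 0, 2], -2), ([3, 1, 0, 0, 2], -2), ([0, 0, 3, 2, 1], -2), ([3, 0, 2, 0, 1], -2), ([3, 2, 0, 0, 1], -2), ([1, 1, 0, 2, 3], -2), ([0, 1, 2, 1, 3], -2), ([0, 2, 1, 1, 3], -2), ([1, 1, 0, 3, 2], -2), ([0, 1, 3, 1, 2], -2), ([0, 3, 1, 1, 2], -2), ([1, 1, 2, 0, 3], -2), ([2, 1, 0, 1, 3], -2), ([2, 0, 1, 1, 3], -2), ([1, 1, 2, 3, 0], -2), ([2, 1, 3, 1, 0], -2), ([2, 3, 1, 1, 0], -2), ([1, 1, 3, 0, 2], -2), ([3, 1, 0, 1, 2], -2), ([3, 0, 1, 1, 2], -2), ([1, 1, 3, 2, 0], -2), ([3, 1, 2, 1, 0], -2), ([3, 2, 1, 1, 0], -2), ([2, 2, 0, 1, 3], -2), ([0, 2, 1, 2, 3], -2), ([0, 1, 2, 2, 3], -2), ([2, 2, 0, 3, 1], -2), ([0, 2, 3, 2, 1], -2), ([0, 3, 2, 2, 1], -2), ([2, 2, 1, 0, 3], -2), ([1, 2, 0, 2, 3], -2), ([1, 0, 2, 2, 3], -2), ([2, 2, 1, 3, 0], -2), ([1, 2, 3, 2, 0], -2), ([1, 3, 2, 2, 0], -2), ([2, 2, 3, 0, 1], -2), ([3, 2, 0, 2, 1], -2), ([3,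 0, 2, 2, 1], -2), ([2, 2, 3, 1, 0], -2), ([3, 2, 1, 2, 0], -2), ([3, 1, 2, 2, 0], -2), ([3, 3, 0, 1, 2], -2), ([0, 3, 1, 3, 2], -2), ([0, 1, 3, 3, 2], -2), ([3, 3, 0, 2, 1], -2), ([0, 3, 2, 3, 1], -2), ([0, 2, 3, 3, 1], -2), ([3, 3, 1, 0, 2], -2), ([1, 3, 0, 3, 2], -2), ([1, 0, 3, 3, 2], -2), ([3, 3, 1, 2, 0], -2), ([1, 3, 2, 3, 0], -2), ([1, 2, 3, 3, 0], -2), ([3, 3, 2, 0, 1], -2), ([2, 3, 0, 3, 1], -2), ([2, 0, 3, 3, 1], -2), ([3, 3, 2, 1, 0], -2), ([2, 3, 1, 3, 0], -2), ([2, 1, 3, 3, 0], -2)]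

theorem quot_wordVal (p : ℕ → A) (w : List ℕ) :
    wordVal (fun i => (p i : Rg)) w = ((wordVal p w : A) : Rg) := by
  induction w with
  | nil => rfl
  | cons i l ih =>
    cases l with
    | nil => rfl
    | cons j l =>
      simp only [wordVal]
      rw [ih, RingCon.coe_mul]

theorem quot_polyVal (p : ℕ → A) (f : List ℕ →₀ ℤ) :
    polyVal (fun i => (p i : Rg)) f = ((polyVal p f : A) : Rg) := by
  induction f using Finsupp.induction_linear with
  | zero => rw [polyVal_zero, polyVal_zero]; rfl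
  | add f g hf hg => rw [polyVal_add, polyVal_add, hf, hg, RingCon.coe_add]
  | single w c => rw [polyVal_single, polyVal_single, quot_wordVal, RingCon.coe_zsmul]

theorem quot_eq_zero (x : A) : (x : Rg) = 0 ↔ ∀ a b, L a b x = 0 := by
  have h1 : ((0 : A) : Rg) = 0 := rfl
  rw [← h1, RingCon.eq]
  constructor
  · intro h a b
    have := h a b
    rwa [map_zero] at this
  · intro h a b
    rw [map_zero]
    exact h a b

theorem zsmul_eq (c : ℤ) (z : ZMod 4) : c • z = (c : ZMod 4) * z := zsmul_eq_mul z c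

theorem identity_holds : IsIdentity Rg (ofList FL) := by
  intro r
  have hr : ∀ i, ∃ x : A, (x : Rg) = r i := fun i => Quotient.exists_rep (r i)
  choose p hp using hr
  have hrp : r = fun i => (p i : Rg) := funext fun i => (hp i).symm
  rw [hrp, quot_polyVal, quot_eq_zero]
  intro a b
  rw [polyVal_ofList]
  have key := G_zero a b (p 0) (p 1) (p 2) (p 3)
  unfold G S Q at key
  simp only [map_add, map_sub] at key
  simp only [FL, List.map_cons, List.map_nil, List.sum_cons, List.sum_nil, wordVal, map_add,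
    map_zsmul, zsmul_eq, map_zero]
  push_cast
  linear_combination key

/-! ### multilinear identities have even coefficients -/

theorem cV : ((words 5).all fun l => !(Nat.beq (val l) 194) || decide (l = [0, 1, 2, 3, 4])) = true := by
  decide +kernel

theorem phi5 (l : List (Fin 5)) (hl : l.length = 5) (h : phi l ≠ 0) : l = [0, 1, 2, 3, 4] := by
  have hm := mem_words l
  rw [hl] at hm
  have h1 := List.all_eq_true.1 cV l hm
  have h2 : Nat.beq (val l) 194 = true := by
    by_contra hc
    apply h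
    unfold phi
    have : tbl (bl l) = 0 := by
      unfold tbl bl
      rw [hl]
      have e1 : Nat.beq 5 6 = false := rfl
      have e2 : Nat.beq 5 5 = true := rfl
      simp only [e1, e2, cond_true, cond_false]
      cases hb : Nat.beq (val l) 194 with
      | false => rfl
      | true => exact absurd hb hc
    rw [this]; simp
  rw [h2] at h1
  simpa using h1

theorem phi_id : phi [0, 1, 2, 3, 4] = 2 := by decide +kernel

theorem wordVal_single (p : ℕ → Fin 5) (w : List ℕ) (hw : w ≠ []) :
    ∃ u : W, toL u = w.map p ∧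
      wordVal (fun i => (MonoidAlgebra.single (FreeSemigroup.of (p i)) 1 : A)) w =
        MonoidAlgebra.single u 1 := by
  induction w with
  | nil => exact absurd rfl hw
  | cons i l ih =>
    cases l with
    | nil => exact ⟨FreeSemigroup.of (p i), rfl, rfl⟩
    | cons j l =>
      obtain ⟨u, hu, hv⟩ := ih (by simp)
      refine ⟨FreeSemigroup.of (p i) * u, ?_, ?_⟩
      · rw [toL_mul, hu]; rfl
      · simp only [wordVal]
        rw [hv, MonoidAlgebra.single_mul_single, one_mul]

theorem even_coeff (g : List ℕ →₀ ℤ) (hg : Multilinear g 5) (hi : IsIdentity Rg g) (w : List ℕ) :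
    (2 : ℤ) ∣ g w := by
  by_cases hw : g w = 0
  · rw [hw]; exact dvd_zero _
  have hwp := hg w hw
  have hlen : w.length = 5 := by rw [hwp.length_eq]; simp
  have hnd : w.Nodup := hwp.nodup_iff.2 List.nodup_range
  let idx : ℕ → Fin 5 := fun i => Fin.ofNat 5 (w.idxOf i)
  let inv : Fin 5 → ℕ := fun k => w.getD k.val 0
  have hinv : ∀ i ∈ w, inv (idx i) = i := by
    intro i hiw
    have hlt := List.idxOf_lt_length_iff.2 hiw
    have : (idx i).val = w.idxOf i := by
      simp only [idx, Fin.ofNat]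
      rw [hlen] at hlt
      exact Nat.mod_eq_of_lt hlt
    simp only [inv]
    rw [this, List.getD_eq_getElem _ _ hlt, List.getElem_idxOf]
  have hback : ∀ l : List ℕ, (∀ i ∈ l, i ∈ w) → (l.map idx).map inv = l := by
    intro l hl
    rw [List.map_map]
    conv_rhs => rw [← List.map_id l]
    apply List.map_congr_left
    intro i hi'
    exact hinv i (hl i hi')
  have hmap : w.map idx = [0, 1, 2, 3, 4] := by
    apply List.ext_getElem
    · simp [hlen]
    · intro k h1 h2
      have hk : k < w.length := by simpa using h1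
      rw [List.getElem_map]
      have hidx : w.idxOf w[k] = k := List.Nodup.idxOf_getElem hnd k hk
      simp only [idx, hidx]
      have hk5 : k < 5 := by omega
      interval_cases k <;> rfl
  have hL : L [] [] (polyVal (fun i => (MonoidAlgebra.single (FreeSemigroup.of (idx i)) 1 : A)) g) = 0 := by
    have h1 := hi fun i => ((MonoidAlgebra.single (FreeSemigroup.of (idx i)) 1 : A) : Rg)
    rw [quot_polyVal, quot_eq_zero] at h1
    exact h1 [] []
  have hsum : L [] [] (polyVal (fun i => (MonoidAlgebra.single (FreeSemigroup.of (idx i)) 1 : A)) g) =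
      (g w : ZMod 4) * 2 := by
    unfold polyVal
    rw [map_finsuppSum, Finsupp.sum, Finset.sum_eq_single w]
    · obtain ⟨u, hu, hv⟩ := wordVal_single idx w (by intro h; rw [h] at hlen; simp at hlen)
      rw [map_zsmul, hv, L_single, hu, one_mul, List.append_nil, List.nil_append, hmap, phi_id, zsmul_eq]
    · intro w' hw' hne
      have hw'0 : g w' ≠ 0 := Finsupp.mem_support_iff.1 hw'
      have hp' := hg w' hw'0
      have hlen' : w'.length = 5 := by rw [hp'.length_eq]; simp
      obtain ⟨u, hu, hv⟩ := wordVal_single idx w' (by intro h; rw [h] at hlen'; simp at hlen')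
      rw [map_zsmul, hv, L_single, hu, one_mul, List.append_nil, List.nil_append]
      have : phi (w'.map idx) = 0 := by
        by_contra hc
        have h5 := phi5 _ (by simpa using hlen') hc
        apply hne
        have hmem : ∀ i ∈ w', i ∈ w := fun i hi' => (hp'.trans hwp.symm).mem_iff.1 hi'
        rw [← hback w' hmem, h5, ← hmap, hback w (fun i hi' => hi')]
      rw [this, smul_zero]
    · intro hc
      rw [Finsupp.notMem_support_iff.1 hc, zero_smul, map_zero]
  rw [hsum] at hL
  have h2 : ((g w * 2 : ℤ) : ZMod 4) = 0 := by push_cast; exact hL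
  rw [ZMod.intCast_zmod_eq_zero_iff_dvd] at h2
  obtain ⟨k, hk⟩ := h2
  exact ⟨k, by push_cast at hk; omega⟩

theorem result : ∃ (R : Type) (_ : NonUnitalRing R) (d : ℕ), 1 ≤ d ∧
    (∃ f : List ℕ →₀ ℤ, f [] = 0 ∧ HasDegree f d ∧ CoprimeCoeffs f ∧ IsIdentity R f) ∧
    ∀ g : List ℕ →₀ ℤ, Multilinear g d → IsIdentity R g → ∀ w, (2 : ℤ) ∣ g w ∧ g w ≠ 1 := by
  refine ⟨Rg, inferInstance, 5, by norm_num, ⟨ofList FL, ?_, ⟨?_, ?_⟩, ?_, identity_holds⟩, ?_⟩
  · rw [ofList_apply]; decide +kernel
  · intro w hw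
    obtain ⟨t, ht, rfl⟩ := ofList_ne _ _ hw
    have : ∀ t ∈ FL, t.1.length ≤ 5 := by decide +kernel
    exact this t ht
  · refine ⟨[0, 0, 1, 2, 3], ?_, rfl⟩
    rw [ofList_apply]; decide +kernel
  · intro n hn
    have h1 := hn [0, 1, 2, 3]
    have h2 : ofList FL [0, 1, 2, 3] = 1 := by rw [ofList_apply]; decide +kernel
    rw [h2] at h1
    exact isUnit_of_dvd_one h1
  · intro g hg hi w
    have h := even_coeff g hg hi w
    refine ⟨h, ?_⟩
    intro h1
    rw [h1] at h
    norm_num at h

end Pool.Agent.Results.MP_f7573e_al.NoUnitCoefficient
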