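import Mathlib
import Pool.Agent.Helper214.UC.Ring

set_option autoImplicit false
set_option linter.unusedSimpArgs false

namespace Pool.Agent.Results.MP_f7573e_al.UnitCoefficient

/-! ### Definitions used in the statement -/

/-- `ℤ⟨X⟩`: the free associative ring without unit on the variables `x₀, x₁, x₂, …`, as the monoid
ring over `ℤ` of the free semigroup on `ℕ`.  Its elements are the integer linear combinations of
nonempty words in the variables. -/
abbrev FreeRing : Type := MonoidAlgebra ℤ (FreeSemigroup ℕ)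

/-- The value `f(r₀, r₁, …)` in the associative ring `R` (not necessarily with a unit): each word
`w` of `f` is replaced by the product of the corresponding elements of `R`. -/
noncomputable def eval {R : Type*} [NonUnitalRing R] (r : ℕ → R) (f : FreeRing) : R :=
  f.coeff.sum fun w c => c • FreeSemigroup.lift r w

/-- `R` satisfies the identity `f`. -/
def SatisfiesIdentity (R : Type*) [NonUnitalRing R] (f : FreeRing) : Prop :=
  ∀ r : ℕ → R, eval r f = 0

/-- The degree of `f`: the maximal length of a word occurring in `f` with nonzero coefficient. -/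
def degree (f : FreeRing) : ℕ := f.coeff.support.sup FreeSemigroup.length

/-- The greatest common divisor of the coefficients of `f` is `1`. -/
def HasCoprimeCoeffs (f : FreeRing) : Prop := f.coeff.support.gcd f.coeff = 1

/-- The word `x_{σ(0)} x_{σ(1)} ⋯ x_{σ(n)}` of length `n + 1`. -/
def permWord {n : ℕ} (σ : Equiv.Perm (Fin (n + 1))) : FreeSemigroup ℕ :=
  ⟨(σ 0 : ℕ), List.ofFn fun i : Fin n => ((σ i.succ : Fin (n + 1)) : ℕ)⟩

/-- The multilinear polynomial `∑_σ α_σ x_{σ(0)} x_{σ(1)} ⋯ x_{σ(n)}` of degree `n + 1`. -/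
noncomputable def multilinear {n : ℕ} (α : Equiv.Perm (Fin (n + 1)) → ℤ) : FreeRing :=
  ∑ σ, MonoidAlgebra.single (permWord σ) (α σ)

/-! ### Proof -/

open Pool.Agent.Helper214.UC

/-- evaluation as an algebra homomorphism -/
noncomputable def evalHom {R : Type*} [NonUnitalRing R] (r : ℕ → R) : FreeRing →ₙₐ[ℤ] R :=
  MonoidAlgebra.liftMagma ℤ (FreeSemigroup.lift r)

theorem evalHom_eq {R : Type*} [NonUnitalRing R] (r : ℕ → R) (f : FreeRing) :
    eval r f = evalHom r f := rfl

theorem evalHom_single {R : Type*} [NonUnitalRing R] (r : ℕ → R) (w : FreeSemigroup ℕ) (c : ℤ) :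
    evalHom r (MonoidAlgebra.single w c) = c • FreeSemigroup.lift r w := by
  rw [← evalHom_eq, eval, MonoidAlgebra.coeff_single, Finsupp.sum_single_index]
  simp

/-- the variables -/
noncomputable def X (i : ℕ) : FreeRing := MonoidAlgebra.single (FreeSemigroup.of i) 1

theorem evalHom_X {R : Type*} [NonUnitalRing R] (r : ℕ → R) (i : ℕ) : evalHom r (X i) = r i := by
  simp [X, evalHom_single]

/-- the identity -/
noncomputable def ff0 : FreeRing := ff (X 0) (X 1) (X 2) (X 3)

theorem evalHom_ff0 {R : Type*} [NonUnitalRing R] (r : ℕ → R) :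
    evalHom r ff0 = ff (r 0) (r 1) (r 2) (r 3) := by
  have := map_ff (evalHom r : FreeRing →ₙ+* R) (X 0) (X 1) (X 2) (X 3)
  rw [ff0, ← evalHom_X r 0, ← evalHom_X r 1, ← evalHom_X r 2, ← evalHom_X r 3]
  exact this

/-- the quotient map -/
noncomputable def mkHom : E →ₙ+* R where
  toFun x := (x : R)
  map_mul' _ _ := rfl
  map_zero' := rfl
  map_add' _ _ := rfl

theorem mkHom_surj (r : R) : ∃ x, mkHom x = r := Quotient.exists_rep r

theorem mkHom_eq_zero (x : E) : mkHom x = 0 ↔ ∀ a b : F, lam (a * iota x * b) = 0 := by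
  have h0 : (0 : R) = ((0 : E) : R) := rfl
  rw [h0]
  change ((x : R) = ((0 : E) : R)) ↔ _
  rw [RingCon.eq]
  change (∀ a b : F, lam (a * iota x * b) = lam (a * iota 0 * b)) ↔ _
  simp only [map_zero, mul_zero, zero_mul]

theorem R_ff (x y z t : R) : ff x y z t = 0 := by
  obtain ⟨x, rfl⟩ := mkHom_surj x
  obtain ⟨y, rfl⟩ := mkHom_surj y
  obtain ⟨z, rfl⟩ := mkHom_surj z
  obtain ⟨t, rfl⟩ := mkHom_surj t
  rw [← map_ff, mkHom_eq_zero]
  intro a b
  have h : iota (ff x y z t) = ff (iota x) (iota y) (iota z) (iota t) :=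
    map_ff (iota : E →ₙ+* F) x y z t
  rw [h]
  exact main_zero a b x y z t

theorem R_satisfies : SatisfiesIdentity R ff0 := by
  intro r
  rw [evalHom_eq, evalHom_ff0, R_ff]

/-! coefficients of the identity -/

theorem coeff_sub0 (x y : FreeRing) (w : FreeSemigroup ℕ) :
    (x - y).coeff w = x.coeff w - y.coeff w := rfl

theorem coeff_ff0 (w : FreeSemigroup ℕ) (h : 5 < w.length) : ff0.coeff w = 0 := by
  have key : ∀ v : FreeSemigroup ℕ, v.length ≤ 5 → (Finsupp.single v (1 : ℤ)) w = 0 := by
    intro v hv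
    rw [Finsupp.single_apply, if_neg]
    rintro rfl
    omega
  simp only [ff0, ff, s4, s3, W, W1, g1, X, mul_add, mul_sub, add_mul, sub_mul,
    MonoidAlgebra.single_mul_single, mul_one, MonoidAlgebra.coeff_add, Finsupp.add_apply,
    coeff_sub0, MonoidAlgebra.coeff_single, MonoidAlgebra.coeff_smul, Finsupp.smul_apply]
  simp only [FreeSemigroup.length_mul, FreeSemigroup.length_of, Nat.reduceAdd, Nat.reduceLeDiff,
    key, add_zero, sub_zero, smul_zero]

theorem coeff_ff0_a : ff0.coeff ⟨0, [1, 2, 3]⟩ = 1 := by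
  simp only [ff0, ff, s4, s3, W, W1, g1, X, mul_add, mul_sub, add_mul, sub_mul,
    MonoidAlgebra.single_mul_single, mul_one, MonoidAlgebra.coeff_add, Finsupp.add_apply,
    coeff_sub0, MonoidAlgebra.coeff_single, MonoidAlgebra.coeff_smul, Finsupp.smul_apply,
    Finsupp.single_apply]
  decide

theorem coeff_ff0_b : ff0.coeff ⟨1, [2, 0, 0, 3]⟩ = 2 := by
  simp only [ff0, ff, s4, s3, W, W1, g1, X, mul_add, mul_sub, add_mul, sub_mul,
    MonoidAlgebra.single_mul_single, mul_one, MonoidAlgebra.coeff_add, Finsupp.add_apply,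
    coeff_sub0, MonoidAlgebra.coeff_single, MonoidAlgebra.coeff_smul, Finsupp.smul_apply,
    Finsupp.single_apply]
  decide

theorem degree_ff0 : degree ff0 = 5 := by
  apply le_antisymm
  · apply Finset.sup_le
    intro w hw
    by_contra h
    push Not at h
    rw [Finsupp.mem_support_iff] at hw
    exact hw (coeff_ff0 w h)
  · have h : (⟨1, [2, 0, 0, 3]⟩ : FreeSemigroup ℕ) ∈ ff0.coeff.support := by
      rw [Finsupp.mem_support_iff, coeff_ff0_b]; decide
    exact Finset.le_sup (f := FreeSemigroup.length) h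

theorem coprime_ff0 : HasCoprimeCoeffs ff0 := by
  have h : (⟨0, [1, 2, 3]⟩ : FreeSemigroup ℕ) ∈ ff0.coeff.support := by
    rw [Finsupp.mem_support_iff, coeff_ff0_a]; decide
  have h1 := Finset.gcd_dvd (f := ff0.coeff) h
  rw [coeff_ff0_a] at h1
  rw [HasCoprimeCoeffs]
  rcases Int.isUnit_iff.1 (isUnit_of_dvd_one h1) with h2 | h2
  · exact h2
  · exfalso
    have h3 := Finset.normalize_gcd (s := ff0.coeff.support) (f := ff0.coeff)
    rw [h2] at h3
    revert h3
    decide

/-! multilinear identities of the ring -/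

theorem lam_perm (π : Equiv.Perm (Fin 5)) :
    lam (MonoidAlgebra.single (FreeMonoid.ofList (List.ofFn π)) 1) = if π = 1 then 2 else 0 := by
  have hfull : ((List.ofFn π : List (Fin 5)) : Multiset (Fin 5)) = full := by
    rw [List.ofFn_eq_map, ← Multiset.map_coe]
    exact Multiset.map_univ_val_equiv π
  have hid : (List.ofFn π = [0, 1, 2, 3, 4]) ↔ π = 1 := by
    constructor
    · intro h
      have h' : List.ofFn π = List.ofFn (id : Fin 5 → Fin 5) := h
      have := List.ofFn_injective h'
      ext i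
      rw [this]; rfl
    · rintro rfl; rfl
  rw [lam_apply, rep_single, psi_inj]
  have hq : ∀ M, q full M = 0 := by
    intro M
    have h1 : full ≠ mu2 := by decide
    have h2 : full ≠ mu4 := by decide
    simp [q, h1, h2]
  have hc : (MonoidAlgebra.single (FreeMonoid.ofList (List.ofFn π)) 1 : F).coeff w0 =
      ind (List.ofFn π) := single_w0 _
  rw [FreeMonoid.toList_ofList, hfull, hq, hc, ind]
  by_cases hπ : π = 1
  · rw [if_pos (hid.2 hπ), if_pos hπ]; simp
  · rw [if_neg (fun h => hπ (hid.1 h)), if_neg hπ]; simp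

theorem multi_even (α : Equiv.Perm (Fin 5) → ℤ)
    (h : SatisfiesIdentity R (multilinear (n := 4) α)) (σ : Equiv.Perm (Fin 5)) :
    Even (α σ) := by
  let ρ : ℕ → Fin 5 := fun j => if hj : j < 5 then σ⁻¹ ⟨j, hj⟩ else 0
  let r : ℕ → R := fun j => mkHom (MonoidAlgebra.single (FreeSemigroup.of (ρ j)) 1)
  have hr : ∀ w : FreeSemigroup ℕ, FreeSemigroup.lift r w =
      mkHom (MonoidAlgebra.single (FreeSemigroup.map ρ w) 1) := by
    intro w
    induction w using FreeSemigroup.recOnMul with
    | ih1 x => rfl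
    | ih2 x y hx hy =>
      rw [map_mul, hx, hy, ← map_mul, map_mul (FreeSemigroup.map ρ),
        MonoidAlgebra.single_mul_single, mul_one]
  have h1 := h r
  rw [evalHom_eq, multilinear, map_sum] at h1
  simp only [evalHom_single, hr] at h1
  have h2 : mkHom (∑ τ : Equiv.Perm (Fin 5), α τ •
      (MonoidAlgebra.single (FreeSemigroup.map ρ (permWord (n := 4) τ)) 1 : E)) = 0 := by
    rw [map_sum, ← h1]
    apply Finset.sum_congr rfl
    intro τ _
    rw [map_zsmul]
  rw [mkHom_eq_zero] at h2
  have h3 := h2 1 1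
  rw [one_mul, mul_one, map_sum, map_sum] at h3
  have hword : ∀ τ : Equiv.Perm (Fin 5), lam (iota (α τ •
      (MonoidAlgebra.single (FreeSemigroup.map ρ (permWord (n := 4) τ)) 1 : E))) =
      (α τ : ZMod 4) * (if τ = σ then 2 else 0) := by
    intro τ
    rw [map_smul, map_zsmul, iota_single]
    have hl : ((FreeSemigroup.map ρ (permWord (n := 4) τ)).head ::
        (FreeSemigroup.map ρ (permWord (n := 4) τ)).tail) = List.ofFn (σ⁻¹ * τ) := by
      have e : ∀ i : Fin 5, ρ (i : ℕ) = σ⁻¹ i := by
        intro i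
        simp [ρ]
      change ρ (τ 0 : ℕ) :: List.map ρ (List.ofFn fun i : Fin 4 => ((τ i.succ : Fin 5) : ℕ)) = _
      have hf : (ρ ∘ fun i : Fin 4 => ((τ i.succ : Fin 5) : ℕ)) =
          fun i : Fin 4 => (σ⁻¹ * τ : Equiv.Perm (Fin 5)) i.succ := by
        funext i
        simp only [Function.comp_apply, e, Equiv.Perm.mul_apply]
      rw [List.map_ofFn, hf, e, List.ofFn_succ (f := (σ⁻¹ * τ : Equiv.Perm (Fin 5)))]
      rfl
    have hi : (if σ⁻¹ * τ = 1 then (2 : ZMod 4) else 0) = if τ = σ then 2 else 0 := by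
      by_cases hτ : τ = σ
      · rw [if_pos hτ, if_pos (by rw [hτ, inv_mul_cancel])]
      · rw [if_neg hτ, if_neg]
        intro h'
        exact hτ (by rw [inv_mul_eq_one] at h'; exact h'.symm)
    rw [hl, lam_perm, zsmul_eq_mul, hi]
  simp only [hword, mul_ite, mul_zero, Finset.sum_ite_eq', Finset.mem_univ, if_true] at h3
  have h4 : ((α σ * 2 : ℤ) : ZMod 4) = 0 := by push_cast; exact h3
  rw [ZMod.intCast_zmod_eq_zero_iff_dvd] at h4
  rw [Int.even_iff]
  push_cast at h4
  omega

/-- **Disproof of Q1.**  There is an associative ring `R` (without unit) which satisfies an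
identity of degree `5` with coprime coefficients, but in every multilinear identity of degree `5`
satisfied by `R` all coefficients are even; in particular none of them is equal to `1`. -/
theorem result : ∃ (R : Type) (_ : NonUnitalRing R) (f : FreeRing),
    SatisfiesIdentity R f ∧ degree f = 5 ∧ HasCoprimeCoeffs f ∧
      ∀ α : Equiv.Perm (Fin 5) → ℤ, SatisfiesIdentity R (multilinear (n := 4) α) →
        ∀ σ, Even (α σ) ∧ α σ ≠ 1 := by
  refine ⟨R, inferInstance, ff0, R_satisfies, degree_ff0, coprime_ff0, ?_⟩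
  intro α h σ
  have := multi_even α h σ
  refine ⟨this, ?_⟩
  intro h1
  rw [h1] at this
  revert this
  decide

end Pool.Agent.Results.MP_f7573e_al.UnitCoefficient
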